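import Pool.Agent.LibThin21.Defs
import Pool.Agent.LibMaier.DispFinal

/-!
The columns coprime to `q = primorial z / p0`, uniformly in the length of the window.
-/

namespace Pool.Agent.LibThin91

open Filter Topology
open Pool.Agent.LibMaier

lemma cols_split {z p0 q N : ℕ} (hp0 : p0.Prime) (hq : q * p0 = primorial z) :
    (cols q N).card ≤ (rough z N).card + (cols q (N / p0)).card := by
  classical
  have hsub : cols q N ⊆ rough z N ∪ (cols q (N / p0)).image (fun j => p0 * j) := by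
    intro a ha
    unfold cols at ha
    rw [Finset.mem_filter, Finset.mem_Icc] at ha
    obtain ⟨⟨ha1, ha2⟩, ha3⟩ := ha
    rw [Finset.mem_union]
    by_cases hpa : p0 ∣ a
    · right
      obtain ⟨j, rfl⟩ := hpa
      rw [Finset.mem_image]
      refine ⟨j, ?_, rfl⟩
      unfold cols
      rw [Finset.mem_filter, Finset.mem_Icc]
      refine ⟨⟨?_, ?_⟩, ?_⟩
      · rcases Nat.eq_zero_or_pos j with h | h
        · rw [h] at ha1; omega
        · exact h
      · rw [Nat.le_div_iff_mul_le hp0.pos, mul_comm]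
        exact ha2
      · exact Nat.Coprime.coprime_mul_left ha3
    · left
      unfold rough
      rw [Finset.mem_filter, Finset.mem_Icc]
      refine ⟨⟨ha1, ha2⟩, ?_⟩
      intro p hpz hp hpa'
      have h1 : p ∣ q * p0 := by
        rw [hq]
        exact hp.dvd_primorial_iff.2 hpz
      rcases hp.dvd_mul.1 h1 with h2 | h2
      · have h3 := Nat.dvd_gcd hpa' h2
        rw [ha3.gcd_eq_one] at h3
        exact hp.one_lt.ne' (Nat.dvd_one.1 h3)
      · rw [(Nat.prime_dvd_prime_iff_eq hp hp0).1 h2] at hpa'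
        exact hpa hpa'
  calc (cols q N).card ≤ (rough z N ∪ (cols q (N / p0)).image (fun j => p0 * j)).card :=
        Finset.card_le_card hsub
    _ ≤ (rough z N).card + ((cols q (N / p0)).image (fun j => p0 * j)).card :=
        Finset.card_union_le _ _
    _ ≤ _ := Nat.add_le_add_left Finset.card_image_le _

lemma rough_small {z N : ℕ} (h : N ≤ z) : (rough z N).card ≤ 1 := by
  have : rough z N ⊆ {1} := by
    intro a ha
    unfold rough at ha
    rw [Finset.mem_filter, Finset.mem_Icc] at ha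
    obtain ⟨⟨ha1, ha2⟩, ha3⟩ := ha
    rw [Finset.mem_singleton]
    by_contra hne
    have hp := Nat.minFac_prime hne
    exact ha3 a.minFac ((Nat.minFac_le (by omega)).trans (ha2.trans h)) hp (Nat.minFac_dvd a)
  exact (Finset.card_le_card this).trans (by simp)

lemma rough_crude (U : ℝ) : ∃ z₀ : ℕ, ∀ z : ℕ, z₀ ≤ z → ∀ N : ℕ, (N : ℝ) ≤ (z : ℝ) ^ U →
    ((rough z N).card : ℝ) ≤ 2 * N / Real.log z + 1 := by
  obtain ⟨z₀, h⟩ := rough_upper_gen isBuchstab_buchstab (U := U) (ε := 1) one_pos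
  refine ⟨max z₀ 2, fun z hz N hN => ?_⟩
  have hz0 : z₀ ≤ z := (le_max_left _ _).trans hz
  have hz2 : (2 : ℝ) ≤ z := by exact_mod_cast (le_max_right _ _).trans hz
  have hlog : 0 < Real.log (z : ℝ) := Real.log_pos (by linarith)
  rcases le_total N z with h1 | h1
  · have h2 : ((rough z N).card : ℝ) ≤ 1 := by exact_mod_cast rough_small h1
    have h3 : 0 ≤ 2 * (N : ℝ) / Real.log z := by positivity
    linarith
  · have h1' : (z : ℝ) ≤ N := by exact_mod_cast h1
    have h2 := h z hz0 N h1' hN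
    rw [Nat.floor_natCast] at h2
    refine h2.trans ?_
    have h3 : 1 ≤ Real.log (N : ℝ) / Real.log z := by
      rw [one_le_div hlog]
      exact Real.log_le_log (by linarith) h1'
    have h4 : buchstab (Real.log (N : ℝ) / Real.log z) ≤ 1 := isBuchstab_buchstab.le_one _ h3
    have h5 : (buchstab (Real.log (N : ℝ) / Real.log z) + 1) * N / Real.log z ≤
        2 * N / Real.log z := by
      apply div_le_div_of_nonneg_right _ hlog.le
      apply mul_le_mul_of_nonneg_right _ (Nat.cast_nonneg N)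
      linarith
    linarith

lemma cols_crude (U : ℝ) : ∃ z₀ : ℕ, ∀ z : ℕ, z₀ ≤ z → ∀ p0 q : ℕ, p0.Prime →
    q * p0 = primorial z → ∀ N : ℕ, (N : ℝ) ≤ (z : ℝ) ^ U →
    ((cols q N).card : ℝ) ≤ 4 * N / Real.log z + Nat.log 2 N + 1 := by
  obtain ⟨z₀, h⟩ := rough_crude U
  refine ⟨max z₀ 2, fun z hz p0 q hp0 hq N => ?_⟩
  have hz0 : z₀ ≤ z := (le_max_left _ _).trans hz
  have hz2 : (2 : ℝ) ≤ z := by exact_mod_cast (le_max_right _ _).trans hz
  have hlog : 0 < Real.log (z : ℝ) := Real.log_pos (by linarith)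
  induction N using Nat.strong_induction_on with
  | _ N ih =>
    intro hN
    rcases Nat.eq_zero_or_pos N with h0 | h0
    · subst h0
      have : (cols q 0).card = 0 := by
        unfold cols
        simp
      rw [this]
      simp
    · have h1 := cols_split (N := N) hp0 hq
      have h1' : ((cols q N).card : ℝ) ≤ (rough z N).card + (cols q (N / p0)).card := by
        exact_mod_cast h1
      have h2 := h z hz0 N hN
      have hlt : N / p0 < N := Nat.div_lt_self h0 hp0.one_lt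
      have hle2 : N / p0 ≤ N / 2 := Nat.div_le_div_left hp0.two_le (by norm_num)
      have hNR : ((N / p0 : ℕ) : ℝ) ≤ (N : ℝ) / 2 := by
        calc ((N / p0 : ℕ) : ℝ) ≤ ((N / 2 : ℕ) : ℝ) := by exact_mod_cast hle2
          _ ≤ (N : ℝ) / 2 := Nat.cast_div_le
      have hN0 : (0 : ℝ) ≤ N := Nat.cast_nonneg N
      rcases Nat.eq_zero_or_pos (N / p0) with h3 | h3
      · rw [h3] at h1'
        have : (cols q 0).card = 0 := by
          unfold cols
          simp
        rw [this] at h1'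
        have h4 : 2 * (N : ℝ) / Real.log z ≤ 4 * N / Real.log z := by
          apply div_le_div_of_nonneg_right _ hlog.le
          linarith
        have h5 : (0 : ℝ) ≤ Nat.log 2 N := Nat.cast_nonneg _
        push_cast at h1'
        linarith
      · have h4 := ih (N / p0) hlt (by linarith)
        have h5 : Nat.log 2 (N / p0) + 1 ≤ Nat.log 2 N := by
          have h6 : Nat.log 2 (N / p0) ≤ Nat.log 2 (N / 2) := Nat.log_mono_right hle2
          have h7 : Nat.log 2 (N / 2) = Nat.log 2 N - 1 := Nat.log_div_base 2 N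
          have h8 : 1 ≤ N / 2 := h3.trans_le hle2
          have h9 : 1 ≤ Nat.log 2 N := by
            apply Nat.log_pos (by norm_num)
            omega
          omega
        have h5' : (Nat.log 2 (N / p0) : ℝ) + 1 ≤ Nat.log 2 N := by exact_mod_cast h5
        have h6 : 4 * ((N / p0 : ℕ) : ℝ) / Real.log z ≤ 2 * N / Real.log z := by
          apply div_le_div_of_nonneg_right _ hlog.le
          linarith
        have h7 : 4 * (N : ℝ) / Real.log z = 2 * N / Real.log z + 2 * N / Real.log z := by ring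
        linarith

lemma q_div_totient {z p0 q : ℕ} (hp0 : p0.Prime) (hq : q * p0 = primorial z) :
    (q : ℝ) / (q.totient : ℝ) ≤ (primorial z : ℝ) / ((primorial z).totient : ℝ) := by
  have hsq : Squarefree (q * p0) := by
    rw [hq]; exact squarefree_primorial z
  have hcop : Nat.Coprime q p0 := Nat.coprime_of_squarefree_mul hsq
  have hq0 : q ≠ 0 := by
    rintro rfl
    rw [zero_mul] at hq
    exact primorial_ne_zero z hq.symm
  rw [← hq, Nat.totient_mul hcop, Nat.totient_prime hp0]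
  have h1 : (0 : ℝ) < q.totient := by exact_mod_cast Nat.totient_pos.2 (by omega)
  have h2 : (0 : ℝ) < ((p0 - 1 : ℕ) : ℝ) := by
    have := hp0.two_le
    exact_mod_cast (show 0 < p0 - 1 by omega)
  push_cast
  rw [div_le_div_iff₀ h1 (by positivity)]
  have h3 : ((p0 - 1 : ℕ) : ℝ) ≤ p0 := by exact_mod_cast Nat.sub_le _ _
  have h4 : (0 : ℝ) ≤ q := Nat.cast_nonneg q
  calc (q : ℝ) * (q.totient * ((p0 - 1 : ℕ) : ℝ)) = (q * q.totient) * ((p0 - 1 : ℕ) : ℝ) := by ring
    _ ≤ (q * q.totient) * p0 := mul_le_mul_of_nonneg_left h3 (by positivity)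
    _ = q * p0 * q.totient := by ring

theorem cols_bound_unif {ε : ℝ} (hε : 0 < ε) (hε1 : ε < 1 / 100) :
    ∃ B : ℝ, 1 < B ∧ B < 2 ∧ ∀ Lam : ℝ, 0 < Lam → ∀ᶠ z : ℕ in atTop, ∀ p0 q : ℕ, p0.Prime →
      2000 / ε ≤ (p0 : ℝ) → q * p0 = primorial z → ∀ x : ℝ, (z : ℝ) ^ B ≤ x →
      x ≤ ((z : ℝ) + 1) ^ B → ∀ lam : ℝ, 1 / Real.log x ^ 2 ≤ lam → lam ≤ Lam →
        ((cols q ⌊lam * x ^ 2⌋₊).card : ℝ) * ((q : ℝ) / (q.totient : ℝ)) ≤
          (1 + ε) ^ 4 * (eg / 2) * (lam * x ^ 2) := by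
  refine ⟨1 + ε / 100, by linarith, by linarith, ?_⟩
  intro Lam hLam
  obtain ⟨B, hB⟩ : ∃ B : ℝ, B = 1 + ε / 100 := ⟨_, rfl⟩
  rw [← hB]
  obtain ⟨z1, hz1⟩ := rough_upper_gen isBuchstab_buchstab (U := 5) (ε := ε / 100) (by positivity)
  obtain ⟨z2, hz2⟩ := cols_crude 5
  -- eventual facts
  have hnat : Tendsto (fun z : ℕ => (z : ℝ)) atTop atTop := tendsto_natCast_atTop_atTop
  have hlogt : Tendsto (fun z : ℕ => Real.log (z : ℝ)) atTop atTop :=
    Real.tendsto_log_atTop.comp hnat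
  have e1 : ∀ᶠ z : ℕ in atTop, Real.log (16 * Real.log z ^ 2) ≤ ε / 100 * Real.log z := by
    have h1 : Tendsto (fun t : ℝ => Real.exp (ε / 100 * t) / t ^ 2) atTop atTop := by
      have h2 := tendsto_exp_mul_div_rpow_atTop 2 (ε / 100) (by positivity)
      refine h2.congr fun t => ?_
      norm_cast
    filter_upwards [(h1.comp hlogt).eventually_ge_atTop 16, hlogt.eventually_ge_atTop 1] with z hz hz'
    simp only [Function.comp_apply] at hz
    rw [le_div_iff₀ (by positivity)] at hz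
    rw [Real.log_le_iff_le_exp (by positivity)]
    exact hz
  have e2 : ∀ᶠ z : ℕ in atTop, |Real.log Lam| + 4 ≤ ε / 100 * Real.log z := by
    filter_upwards [hlogt.eventually_ge_atTop ((|Real.log Lam| + 4) / (ε / 100))] with z hz
    rw [div_le_iff₀ (by positivity)] at hz
    linarith
  have e3 : ∀ᶠ z : ℕ in atTop, (10 * Real.log z + 1) * Real.log z ≤ ε / 500 * z := by
    have h1 : Tendsto (fun t : ℝ => Real.exp t / t ^ 2) atTop atTop :=
      Real.tendsto_exp_div_pow_atTop 2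
    filter_upwards [(h1.comp hlogt).eventually_ge_atTop (11 * (500 / ε)),
      hlogt.eventually_ge_atTop 1, eventually_ge_atTop 1] with z hz hz' hz1
    simp only [Function.comp_apply] at hz
    rw [le_div_iff₀ (by positivity), Real.exp_log (by exact_mod_cast hz1)] at hz
    have h2 : (10 * Real.log z + 1) * Real.log z ≤ 11 * Real.log z ^ 2 := by nlinarith
    have h3 : 11 * (500 / ε) * Real.log z ^ 2 * (ε / 500) ≤ z * (ε / 500) :=
      mul_le_mul_of_nonneg_right hz (by positivity)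
    have h4 : 11 * (500 / ε) * Real.log z ^ 2 * (ε / 500) = 11 * Real.log z ^ 2 := by
      field_simp
    linarith
  filter_upwards [e1, e2, e3, primorial_div_totient (ε := ε / 10) (by positivity),
    eventually_ge_atTop z1, eventually_ge_atTop z2, eventually_ge_atTop 3,
    hlogt.eventually_ge_atTop 1] with z he1 he2 he3 hmert hzz1 hzz2 hz3 hlog1
  intro p0 q hp0 hp0big hq x hx1 hx2 lam hl1 hl2
  have hzR : (3 : ℝ) ≤ z := by exact_mod_cast hz3
  have hz0 : (0 : ℝ) < z := by linarith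
  have hB1 : 1 ≤ B := by rw [hB]; linarith
  have hBle : B ≤ 1.0001 := by rw [hB]; linarith
  have hzB : (z : ℝ) ≤ (z : ℝ) ^ B := by
    calc (z : ℝ) = (z : ℝ) ^ (1 : ℝ) := (Real.rpow_one _).symm
      _ ≤ (z : ℝ) ^ B := Real.rpow_le_rpow_of_exponent_le (by linarith) hB1
  have hxz : (z : ℝ) ≤ x := hzB.trans hx1
  have hx0 : 0 < x := by linarith
  have hlogz : Real.log z ≤ Real.log x := Real.log_le_log hz0 hxz
  have hlogx1 : B * Real.log z ≤ Real.log x := by
    rw [← Real.log_rpow hz0]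
    exact Real.log_le_log (by positivity) hx1
  have hlog2 : Real.log 2 ≤ 1 := by
    have := Real.log_two_lt_d9
    linarith
  have hlogz1 : Real.log ((z : ℝ) + 1) ≤ Real.log z + 1 := by
    have h1 : (z : ℝ) + 1 ≤ 2 * z := by linarith
    calc Real.log ((z : ℝ) + 1) ≤ Real.log (2 * z) := Real.log_le_log (by linarith) h1
      _ = Real.log 2 + Real.log z := Real.log_mul (by norm_num) hz0.ne'
      _ ≤ _ := by linarith
  have hlogx2 : Real.log x ≤ B * (Real.log z + 1) := by
    calc Real.log x ≤ Real.log (((z : ℝ) + 1) ^ B) := Real.log_le_log hx0 hx2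
      _ = B * Real.log ((z : ℝ) + 1) := Real.log_rpow (by linarith) _
      _ ≤ B * (Real.log z + 1) := mul_le_mul_of_nonneg_left hlogz1 (by linarith)
  have hlogx4 : Real.log x ≤ 4 * Real.log z := by nlinarith
  have hlogx0 : 0 < Real.log x := by linarith
  have hlam0 : 0 < lam := lt_of_lt_of_le (by positivity) hl1
  obtain ⟨y, hy⟩ : ∃ y : ℝ, y = lam * x ^ 2 := ⟨_, rfl⟩
  rw [← hy]
  have hy0 : 0 < y := by rw [hy]; positivity
  -- log y
  have hlogy : Real.log y = Real.log lam + 2 * Real.log x := by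
    rw [hy, Real.log_mul hlam0.ne' (by positivity), Real.log_pow]
    push_cast
    ring
  have hloglam1 : -Real.log (16 * Real.log z ^ 2) ≤ Real.log lam := by
    have h1 : Real.log (1 / Real.log x ^ 2) ≤ Real.log lam := Real.log_le_log (by positivity) hl1
    have h2 : Real.log (1 / Real.log x ^ 2) = -Real.log (Real.log x ^ 2) := by
      rw [one_div, Real.log_inv]
    have h3 : Real.log (Real.log x ^ 2) ≤ Real.log (16 * Real.log z ^ 2) := by
      apply Real.log_le_log (by positivity)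
      nlinarith
    linarith
  have hloglam2 : Real.log lam ≤ |Real.log Lam| :=
    (Real.log_le_log hlam0 hl2).trans (le_abs_self _)
  have hlogz0 : 0 < Real.log z := by linarith
  have hylow : (2 - ε / 100) * Real.log z ≤ Real.log y := by
    rw [hlogy]
    nlinarith
  have hyup : Real.log y ≤ (2 * B + ε / 100) * Real.log z := by
    rw [hlogy]
    nlinarith
  have hzy : (z : ℝ) ≤ y := by
    rw [← Real.log_le_log_iff hz0 hy0]
    nlinarith
  have hyz5 : y ≤ (z : ℝ) ^ (5 : ℝ) := by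
    rw [← Real.log_le_log_iff hy0 (by positivity), Real.log_rpow hz0]
    nlinarith
  obtain ⟨u, hu⟩ : ∃ u : ℝ, u = Real.log y / Real.log z := ⟨_, rfl⟩
  have hu1 : 2 - ε / 100 ≤ u := by
    rw [hu, le_div_iff₀ hlogz0]; exact hylow
  have hu2 : u ≤ 2 * B + ε / 100 := by
    rw [hu, div_le_iff₀ hlogz0]; exact hyup
  have hbu : buchstab u ≤ 1 / 2 + 3 * ε / 100 := by
    have h1 := abs_buchstab_sub_le (u := u) (v := 2) (by linarith) (by norm_num)
    have h2 : buchstab 2 = 1 / 2 := buchstab_of_le' le_rfl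
    have h3 : |u - 2| ≤ 3 * ε / 100 := by
      rw [abs_le]
      constructor
      · linarith
      · rw [hB] at hu2; linarith
    have h4 := (abs_le.1 (h1.trans h3)).2
    rw [h2] at h4
    linarith
  have hr := hz1 z hzz1 y hzy hyz5
  rw [← hu] at hr
  have hr' : ((rough z ⌊y⌋₊).card : ℝ) ≤ (1 / 2 + 4 * ε / 100) * (y / Real.log z) := by
    refine hr.trans ?_
    rw [mul_div_assoc]
    apply mul_le_mul_of_nonneg_right _ (by positivity)
    linarith
  have hp00 : (0 : ℝ) < p0 := by exact_mod_cast hp0.pos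
  have hfl : ((⌊y⌋₊ : ℕ) : ℝ) ≤ y := Nat.floor_le hy0.le
  have hdivR : ((⌊y⌋₊ / p0 : ℕ) : ℝ) ≤ y / p0 := by
    refine Nat.cast_div_le.trans ?_
    exact div_le_div_of_nonneg_right hfl hp00.le
  have hdivle : ((⌊y⌋₊ / p0 : ℕ) : ℝ) ≤ ((⌊y⌋₊ : ℕ) : ℝ) := by
    exact_mod_cast Nat.div_le_self _ _
  have hc := hz2 z hzz2 p0 q hp0 hq (⌊y⌋₊ / p0) (hdivle.trans (hfl.trans hyz5))
  have hlogN : ((Nat.log 2 (⌊y⌋₊ / p0) : ℕ) : ℝ) ≤ 10 * Real.log z := by
    have h1 : Nat.log 2 (⌊y⌋₊ / p0) ≤ Nat.log 2 ⌊y⌋₊ := Nat.log_mono_right (Nat.div_le_self _ _)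
    have h2 : ((Nat.log 2 ⌊y⌋₊ : ℕ) : ℝ) ≤ Real.logb 2 ⌊y⌋₊ := by
      have := Real.natLog_le_logb ⌊y⌋₊ 2
      exact_mod_cast this
    have h3 : 0 < ⌊y⌋₊ := Nat.floor_pos.2 (by linarith)
    have h4 : Real.log (⌊y⌋₊ : ℝ) ≤ Real.log y :=
      Real.log_le_log (by exact_mod_cast h3) hfl
    have h5 : Real.logb 2 ⌊y⌋₊ ≤ 2 * Real.log (⌊y⌋₊ : ℝ) := by
      unfold Real.logb
      rw [div_le_iff₀ (Real.log_pos (by norm_num))]
      have h6 := Real.log_two_gt_d9
      have h7 : 0 ≤ Real.log (⌊y⌋₊ : ℝ) := Real.log_natCast_nonneg _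
      nlinarith
    have h8 : Real.log y ≤ 5 * Real.log z := by nlinarith
    calc ((Nat.log 2 (⌊y⌋₊ / p0) : ℕ) : ℝ) ≤ ((Nat.log 2 ⌊y⌋₊ : ℕ) : ℝ) := by exact_mod_cast h1
      _ ≤ _ := by linarith
  have hp0inv : 4 / (p0 : ℝ) ≤ ε / 500 := by
    rw [div_le_iff₀ hp00]
    rw [div_le_iff₀ hε] at hp0big
    linarith
  have hcr : ((cols q (⌊y⌋₊ / p0)).card : ℝ) ≤ 2 * (ε / 500) * (y / Real.log z) := by
    have h1 : 4 * ((⌊y⌋₊ / p0 : ℕ) : ℝ) / Real.log z ≤ ε / 500 * (y / Real.log z) := by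
      calc 4 * ((⌊y⌋₊ / p0 : ℕ) : ℝ) / Real.log z ≤ 4 * (y / p0) / Real.log z := by
            apply div_le_div_of_nonneg_right _ hlogz0.le
            linarith
        _ = 4 / p0 * (y / Real.log z) := by ring
        _ ≤ ε / 500 * (y / Real.log z) := mul_le_mul_of_nonneg_right hp0inv (by positivity)
    have h2 : 10 * Real.log z + 1 ≤ ε / 500 * (y / Real.log z) := by
      rw [← mul_div_assoc, le_div_iff₀ hlogz0]
      have h3 : ε / 500 * z ≤ ε / 500 * y := mul_le_mul_of_nonneg_left hzy (by positivity)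
      linarith
    linarith
  have hsplit : ((cols q ⌊y⌋₊).card : ℝ) ≤
      ((rough z ⌊y⌋₊).card : ℝ) + ((cols q (⌊y⌋₊ / p0)).card : ℝ) := by
    exact_mod_cast cols_split (N := ⌊y⌋₊) hp0 hq
  have hcols : ((cols q ⌊y⌋₊).card : ℝ) ≤ (1 + ε / 10) * (1 / 2) * (y / Real.log z) := by
    have h1 : 0 ≤ y / Real.log z := by positivity
    have h2 : (1 / 2 + 4 * ε / 100) * (y / Real.log z) + 2 * (ε / 500) * (y / Real.log z) ≤
        (1 + ε / 10) * (1 / 2) * (y / Real.log z) := by
      rw [← add_mul]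
      apply mul_le_mul_of_nonneg_right _ h1
      linarith
    linarith
  have hqt : (q : ℝ) / (q.totient : ℝ) ≤ (1 + ε / 10) * eg * Real.log z :=
    (q_div_totient hp0 hq).trans hmert
  have heg := eg_pos
  have hqt0 : 0 ≤ (q : ℝ) / (q.totient : ℝ) := by positivity
  calc ((cols q ⌊y⌋₊).card : ℝ) * ((q : ℝ) / (q.totient : ℝ))
      ≤ ((1 + ε / 10) * (1 / 2) * (y / Real.log z)) * ((1 + ε / 10) * eg * Real.log z) := by
        apply mul_le_mul hcols hqt hqt0 (by positivity)
    _ = (1 + ε / 10) ^ 2 * ((eg / 2) * y) := by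
        field_simp
    _ ≤ (1 + ε) ^ 4 * ((eg / 2) * y) := by
        apply mul_le_mul_of_nonneg_right _ (by positivity)
        calc (1 + ε / 10) ^ 2 ≤ (1 + ε) ^ 2 := by gcongr; linarith
          _ ≤ (1 + ε) ^ 4 := pow_le_pow_right₀ (by linarith) (by norm_num)
    _ = (1 + ε) ^ 4 * (eg / 2) * y := by ring

end Pool.Agent.LibThin91
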