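import Pool.Agent.LibThin91.F2
import Pool.Agent.LibPNT.PNT

/-!
Examples: the random model exists for every `E`; a set `E` which contains all primes of `(Y, 2Y]` for
arbitrarily large `Y` has `δ(X) ≥ 1 / log X` for arbitrarily large `X`.
-/

namespace Pool.Agent.LibThin91

open Filter Topology MeasureTheory ProbabilityTheory
open Pool.Agent.LibMaier Pool.Agent.LibThin21
open scoped ENNReal

open Classical in
/-- the law of `a p` -/
noncomputable def lawP (E : Set ℕ) (p : ℕ) : Measure ℕ :=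
  if p.Prime ∧ p ∈ E then (p : ℝ≥0∞)⁻¹ • ∑ r ∈ Finset.range p, Measure.dirac r
  else Measure.dirac 0

instance isProb_lawP (E : Set ℕ) (p : ℕ) : IsProbabilityMeasure (lawP E p) := by
  unfold lawP
  split_ifs with h
  · constructor
    rw [Measure.smul_apply, Measure.finsetSum_apply]
    simp only [measure_univ, Finset.sum_const, Finset.card_range, smul_eq_mul, nsmul_eq_mul, mul_one]
    apply ENNReal.inv_mul_cancel
    · exact_mod_cast h.1.ne_zero
    · exact ENNReal.natCast_ne_top p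
  · infer_instance

lemma lawP_singleton {E : Set ℕ} {p r : ℕ} (hp : p.Prime) (hpE : p ∈ E) (hr : r < p) :
    lawP E p {r} = (p : ℝ≥0∞)⁻¹ := by
  unfold lawP
  rw [if_pos ⟨hp, hpE⟩, Measure.smul_apply, Measure.finsetSum_apply]
  have h1 : ∑ i ∈ Finset.range p, (Measure.dirac i : Measure ℕ) {r} = 1 := by
    rw [Finset.sum_eq_single r]
    · simp
    · intro b _ hbr
      rw [Measure.dirac_apply' _ (MeasurableSet.singleton r)]
      exact Set.indicator_of_notMem (by simpa using hbr) _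
    · intro h
      exact absurd (Finset.mem_range.2 hr) h
  rw [h1, smul_eq_mul, mul_one]

theorem exists_model (E : Set ℕ) : ∃ (Ω : Type) (_ : MeasurableSpace Ω) (μ : Measure Ω)
    (_ : IsProbabilityMeasure μ) (a : ℕ → Ω → ℕ), Model μ E a := by
  classical
  refine ⟨ℕ → ℕ, inferInstance, Measure.infinitePi (lawP E), inferInstance,
    fun p ω => if p ∈ E then ω p else 0, ?_⟩
  have hX : ∀ p : ℕ, Measurable (fun x : ℕ => if p ∈ E then x else 0) := fun p =>
    measurable_from_top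
  refine ⟨fun p => (hX p).comp (measurable_pi_apply p), ?_, ?_, ?_⟩
  · exact iIndepFun_infinitePi (P := lawP E) (X := fun (p : ℕ) (x : ℕ) => if p ∈ E then x else 0) hX
  · intro p hp hpE r hr
    have h1 : {ω : ℕ → ℕ | (if p ∈ E then ω p else 0) = r} = (fun ω : ℕ → ℕ => ω p) ⁻¹' {r} := by
      ext ω
      simp [hpE]
    rw [h1, ← Measure.map_apply (measurable_pi_apply p) (MeasurableSet.singleton r),
      Measure.infinitePi_map_eval, lawP_singleton hp hpE hr]
  · intro p hpE ω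
    simp [hpE]

lemma theta_block : ∀ᶠ Y : ℝ in atTop,
    0.7 * Y ≤ Chebyshev.theta (2 * Y) - Chebyshev.theta Y := by
  have h1 := LibPNT.theta_tendsto
  have h2 : Tendsto (fun Y : ℝ => 2 * Y) atTop atTop := tendsto_id.const_mul_atTop (by norm_num)
  filter_upwards [h1.eventually_le_const (show (1 : ℝ) < 1.1 by norm_num),
    (h1.comp h2).eventually_const_le (show (0.9 : ℝ) < 1 by norm_num),
    eventually_gt_atTop (0 : ℝ)] with Y h3 h4 hY
  simp only [Function.comp_apply] at h4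
  rw [div_le_iff₀ hY] at h3
  rw [le_div_iff₀ (by linarith)] at h4
  linarith

theorem dyadic {E : Set ℕ}
    (h : ∃ᶠ Y : ℝ in atTop, ∀ p : ℕ, p.Prime → Y < p → (p : ℝ) ≤ 2 * Y → p ∈ E) :
    ∃ᶠ x : ℝ in atTop, 1 / x ≤ del E x := by
  have e1 : ∀ᶠ Y : ℝ in atTop, (4 * Real.log Y) ^ 8 ≤ Y := by
    have h1 : Tendsto (fun t : ℝ => Real.exp t / t ^ 8) atTop atTop :=
      Real.tendsto_exp_div_pow_atTop 8
    filter_upwards [(h1.comp Real.tendsto_log_atTop).eventually_ge_atTop (4 ^ 8),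
      Real.tendsto_log_atTop.eventually_ge_atTop 1, eventually_gt_atTop (0 : ℝ)] with Y h2 h3 h4
    simp only [Function.comp_apply] at h2
    rw [le_div_iff₀ (by positivity), Real.exp_log h4] at h2
    rw [mul_pow]
    exact h2
  have e2 : ∀ᶠ Y : ℝ in atTop, 2 * Real.log 2 + 1 ≤ Real.log Y / 3 :=
    (Real.tendsto_log_atTop.atTop_div_const (by norm_num)).eventually_ge_atTop _
  rw [frequently_atTop]
  intro A
  obtain ⟨Y, hY, h1, h2, h3, hY1, hYA⟩ := (h.and_eventually (e1.and (e2.and (theta_block.and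
    ((eventually_ge_atTop (1 : ℝ)).and
      (Real.tendsto_log_atTop.eventually_ge_atTop (A / 4))))))).exists
  have hY0 : 0 < Y := by linarith
  have hl2 : 0 < Real.log 2 := Real.log_pos (by norm_num)
  have hlY : 0 < Real.log Y := by linarith
  refine ⟨4 * Real.log Y, by linarith, ?_⟩
  -- the block is inside the range
  have hup : 2 * Y ≤ Real.exp (4 * Real.log Y / 3) := by
    have h4 : 2 * Y = Real.exp (Real.log 2 + Real.log Y) := by
      rw [Real.exp_add, Real.exp_log (by norm_num), Real.exp_log hY0]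
    rw [h4]
    apply Real.exp_le_exp.2
    linarith
  obtain ⟨F, hF⟩ : ∃ F : Finset ℕ, F = (Finset.Ioc ⌊Y⌋₊ ⌊2 * Y⌋₊).filter Nat.Prime := ⟨_, rfl⟩
  have hFmem : ∀ p ∈ F, p.Prime ∧ Y < p ∧ (p : ℝ) ≤ 2 * Y := by
    intro p hp
    rw [hF, Finset.mem_filter, Finset.mem_Ioc] at hp
    refine ⟨hp.2, ?_, ?_⟩
    · exact (Nat.floor_lt hY0.le).1 hp.1.1
    · exact (Nat.le_floor_iff (by linarith)).1 hp.1.2
  have hsub : F ⊆ EP E ((4 * Real.log Y) ^ 8) (Real.exp (4 * Real.log Y / 3)) := by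
    intro p hp
    obtain ⟨hp1, hp2, hp3⟩ := hFmem p hp
    rw [mem_EP (Real.exp_pos _).le]
    exact ⟨hp1, hY p hp1 hp2 hp3, lt_of_le_of_lt h1 hp2, hp3.trans hup⟩
  have hsum : ∑ p ∈ F, 1 / (p : ℝ) ≤ del E (4 * Real.log Y) := by
    unfold del SE
    apply Finset.sum_le_sum_of_subset_of_nonneg hsub
    intro p _ _
    positivity
  have htheta : Chebyshev.theta (2 * Y) - Chebyshev.theta Y = ∑ p ∈ F, Real.log p := by
    unfold Chebyshev.theta
    have h5 : ⌊Y⌋₊ ≤ ⌊2 * Y⌋₊ := Nat.floor_mono (by linarith)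
    have h6 : (Finset.Ioc 0 ⌊2 * Y⌋₊).filter Nat.Prime =
        (Finset.Ioc 0 ⌊Y⌋₊).filter Nat.Prime ∪ F := by
      rw [hF, ← Finset.filter_union, Finset.Ioc_union_Ioc_eq_Ioc (Nat.zero_le _) h5]
    rw [h6, Finset.sum_union]
    · ring
    · rw [Finset.disjoint_left]
      intro p hp hpF
      rw [Finset.mem_filter, Finset.mem_Ioc] at hp
      rw [hF, Finset.mem_filter, Finset.mem_Ioc] at hpF
      omega
  have hle : ∑ p ∈ F, Real.log p ≤ (2 * Y * Real.log (2 * Y)) * ∑ p ∈ F, 1 / (p : ℝ) := by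
    rw [Finset.mul_sum]
    apply Finset.sum_le_sum
    intro p hp
    obtain ⟨hp1, hp2, hp3⟩ := hFmem p hp
    have hp0 : (0 : ℝ) < p := by linarith
    have h7 : Real.log p ≤ Real.log (2 * Y) := Real.log_le_log hp0 hp3
    have h8 : 0 ≤ Real.log p := Real.log_natCast_nonneg p
    have h9 : 1 ≤ 2 * Y * (1 / (p : ℝ)) := by
      rw [mul_one_div, one_le_div hp0]
      exact hp3
    calc Real.log p = 1 * Real.log p := (one_mul _).symm
      _ ≤ (2 * Y * (1 / (p : ℝ))) * Real.log (2 * Y) := by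
          apply mul_le_mul h9 h7 h8
          linarith
      _ = _ := by ring
  have hlog2Y : Real.log (2 * Y) = Real.log 2 + Real.log Y := Real.log_mul (by norm_num) hY0.ne'
  obtain ⟨σ, hσ⟩ : ∃ σ : ℝ, σ = ∑ p ∈ F, 1 / (p : ℝ) := ⟨_, rfl⟩
  rw [← hσ] at hsum hle
  have h10 : 0.7 * Y ≤ 2 * Y * Real.log (2 * Y) * σ := by
    rw [htheta] at h3
    linarith
  have h11 : 0.35 ≤ Real.log (2 * Y) * σ := by
    by_contra hcon
    push Not at hcon
    have : 2 * Y * (Real.log (2 * Y) * σ) < 2 * Y * 0.35 :=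
      mul_lt_mul_of_pos_left hcon (by linarith)
    linarith
  have hσ0 : 0 ≤ σ := by
    rw [hσ]
    exact Finset.sum_nonneg fun p _ => by positivity
  have h12 : Real.log (2 * Y) * σ ≤ (1.2 * Real.log Y) * σ := by
    apply mul_le_mul_of_nonneg_right _ hσ0
    rw [hlog2Y]
    linarith
  refine le_trans ?_ hsum
  rw [div_le_iff₀ (by linarith)]
  linarith

end Pool.Agent.LibThin91
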