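import Pool.Agent.LibThin21.F1

/-!
Calculus for windows of variable length: `(1 - η) Φ(s) (log X)²` leaves room, and `Φ(s)` is between
constant multiples of `1 / loglog X` and `1` for `s ≥ 1 / log X`.
-/

namespace Pool.Agent.LibThin91

open Filter Topology
open Pool.Agent.LibMaier Pool.Agent.LibThin21

/-- `M(s) = e^s log (1 / (1 - e^{-s}))` -/
noncomputable def MM (s : ℝ) : ℝ := Real.exp s * Real.log (1 / (1 - Real.exp (-s)))

lemma Phi_eq (s : ℝ) : Phi s = 2 * Real.exp (-Real.eulerMascheroniConstant) / MM s := rfl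

lemma MM_eq (s : ℝ) : MM s = Real.log (1 / (1 - Real.exp (-s))) / Real.exp (-s) := by
  unfold MM
  rw [Real.exp_neg s]
  field_simp

lemma exp_neg_lt_one {s : ℝ} (hs : 0 < s) : Real.exp (-s) < 1 := by
  rw [Real.exp_lt_one_iff]
  linarith

lemma one_le_MM {s : ℝ} (hs : 0 < s) : 1 ≤ MM s := by
  rw [MM_eq, one_le_div (Real.exp_pos _)]
  exact F1_lower (Real.exp_pos _) (exp_neg_lt_one hs)

lemma MM_anti {s t : ℝ} (hs : 0 < s) (hst : s ≤ t) : MM t ≤ MM s := by
  rw [MM_eq, MM_eq]
  exact F1_mono (Real.exp_pos _) (Real.exp_le_exp.2 (by linarith)) (exp_neg_lt_one hs)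

lemma Phi_mono {s t : ℝ} (hs : 0 < s) (hst : s ≤ t) : Phi s ≤ Phi t := by
  rw [Phi_eq, Phi_eq]
  apply div_le_div_of_nonneg_left (by positivity)
  · have := one_le_MM (hs.trans_le hst)
    linarith
  · exact MM_anti hs hst

lemma Phi_le_two {s : ℝ} (hs : 0 < s) : Phi s ≤ 2 := by
  rw [Phi_eq]
  have h1 := one_le_MM hs
  rw [div_le_iff₀ (by linarith)]
  have h2 : Real.exp (-Real.eulerMascheroniConstant) ≤ 1 := by
    rw [Real.exp_le_one_iff]
    have := Real.one_half_lt_eulerMascheroniConstant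
    linarith
  linarith

theorem room {s η ε Q : ℝ} (hs : 0 < s) (hη1 : η < 1) (hε : 0 < ε)
    (hεη : ε ≤ η / 60) (hQ : 0 < Q) (hQs : Q ≤ Real.exp (-s)) :
    (1 + 50 * ε) * (eg / 2) * ((1 - η) * Phi s) * (Real.log (1 / (1 - Q)) / Q) ≤ 1 - 5 * ε := by
  have h1 := one_le_MM hs
  have h2 : Real.log (1 / (1 - Q)) / Q ≤ MM s := by
    rw [MM_eq]
    exact F1_mono hQ hQs (exp_neg_lt_one hs)
  have h3 := Phi_pos hs
  have h4 : Phi s * MM s = 2 * Real.exp (-Real.eulerMascheroniConstant) := by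
    rw [Phi_eq]
    field_simp
  have h5 : eg * Real.exp (-Real.eulerMascheroniConstant) = 1 := by
    unfold eg
    rw [← Real.exp_add]
    simp
  have heg := eg_pos
  calc (1 + 50 * ε) * (eg / 2) * ((1 - η) * Phi s) * (Real.log (1 / (1 - Q)) / Q)
      ≤ (1 + 50 * ε) * (eg / 2) * ((1 - η) * Phi s) * MM s := by
        apply mul_le_mul_of_nonneg_left h2
        have : 0 < 1 - η := by linarith
        positivity
    _ = (1 + 50 * ε) * (1 - η) * (eg / 2) * (Phi s * MM s) := by ring
    _ = (1 + 50 * ε) * (1 - η) * (eg * Real.exp (-Real.eulerMascheroniConstant)) := by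
        rw [h4]; ring
    _ = (1 + 50 * ε) * (1 - η) := by rw [h5, mul_one]
    _ ≤ 1 - 5 * ε := by nlinarith

/-- `M(1/x) ≤ e^{1/x} log (2x)` -/
lemma MM_le {x s : ℝ} (hx : 1 ≤ x) (hs : 1 / x ≤ s) : MM s ≤ Real.exp (1 / x) * Real.log (2 * x) := by
  have hx0 : 0 < x := by linarith
  have h0 : 0 < 1 / x := by positivity
  refine (MM_anti h0 hs).trans ?_
  unfold MM
  apply mul_le_mul_of_nonneg_left _ (Real.exp_pos _).le
  have h1 := exp_neg_lt_one h0
  have h2 : 1 / (2 * x) ≤ 1 - Real.exp (-(1 / x)) := by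
    have h3 : 1 / x ≤ 1 := by rw [div_le_one hx0]; exact hx
    have h4 : Real.exp (-(1 / x)) ≤ 1 / (1 + 1 / x) := by
      rw [Real.exp_neg, ← one_div]
      apply one_div_le_one_div_of_le (by linarith)
      have := Real.add_one_le_exp (1 / x)
      linarith
    have h5 : 1 / (1 + 1 / x) = 1 - 1 / (x + 1) := by
      field_simp
      ring
    have h6 : 1 / (2 * x) ≤ 1 / (x + 1) := by
      apply one_div_le_one_div_of_le (by linarith)
      linarith
    linarith
  apply Real.log_le_log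
  · apply one_div_pos.2; linarith
  · calc 1 / (1 - Real.exp (-(1 / x))) ≤ 1 / (1 / (2 * x)) :=
          one_div_le_one_div_of_le (by positivity) h2
      _ = 2 * x := by field_simp

lemma window_lower {η : ℝ} (hη1 : η < 1) :
    ∀ᶠ x : ℝ in atTop, ∀ s : ℝ, 1 / x ≤ s → 1 / Real.log x ^ 2 ≤ (1 - η) * Phi s := by
  have hg : 0 < (1 - η) * (2 * Real.exp (-Real.eulerMascheroniConstant)) := by
    have : 0 < 1 - η := by linarith
    positivity
  obtain ⟨g, hgd⟩ : ∃ g : ℝ, g = (1 - η) * (2 * Real.exp (-Real.eulerMascheroniConstant)) := ⟨_, rfl⟩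
  rw [← hgd] at hg
  filter_upwards [Real.tendsto_log_atTop.eventually_ge_atTop (6 / g + 1), eventually_ge_atTop (1 : ℝ)] with
    x hx hx1 s hs
  have hx0 : 0 < x := by linarith
  have hs0 : 0 < s := lt_of_lt_of_le (by positivity) hs
  have h1 := MM_le hx1 hs
  have h2 := one_le_MM hs0
  have h3 : Real.exp (1 / x) ≤ 3 := by
    have h4 : 1 / x ≤ 1 := by rw [div_le_one hx0]; exact hx1
    have := Real.exp_one_lt_d9
    have := Real.exp_le_exp.2 h4
    linarith
  have h5 : 0 < 6 / g := by positivity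
  have hl1 : 1 ≤ Real.log x := by linarith
  have h6 : Real.log (2 * x) ≤ 2 * Real.log x := by
    rw [Real.log_mul (by norm_num) hx0.ne']
    have := Real.log_two_lt_d9
    linarith
  have h7 : MM s ≤ 6 * Real.log x := by
    have h8 : 0 ≤ Real.log (2 * x) := Real.log_nonneg (by linarith)
    calc MM s ≤ Real.exp (1 / x) * Real.log (2 * x) := h1
      _ ≤ 3 * (2 * Real.log x) := mul_le_mul h3 h6 h8 (by norm_num)
      _ = 6 * Real.log x := by ring
  rw [Phi_eq, ← mul_div_assoc, ← hgd, div_le_div_iff₀ (by positivity) (by linarith)]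
  have h9 : 6 / g ≤ Real.log x := by linarith
  rw [div_le_iff₀ hg] at h9
  calc 1 * MM s ≤ 6 * Real.log x := by linarith
    _ ≤ (Real.log x * g) * Real.log x := mul_le_mul_of_nonneg_right h9 (by linarith)
    _ = g * Real.log x ^ 2 := by ring

/-- `Φ(s) ≥ (1 - η) 2 e^{-γ} / log x` for `s ≥ 1 / x` -/
lemma Phi_loglog {η : ℝ} (hη : 0 < η) :
    ∀ᶠ x : ℝ in atTop, ∀ s : ℝ, 1 / x ≤ s →
      (1 - η) * (2 * Real.exp (-Real.eulerMascheroniConstant)) / Real.log x ≤ Phi s := by
  have h1 : Tendsto (fun x : ℝ => Real.exp (1 / x)) atTop (𝓝 1) := by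
    have h2 : Tendsto (fun x : ℝ => 1 / x) atTop (𝓝 0) := by
      simpa using tendsto_inv_atTop_zero
    have h3 := (Real.continuous_exp.tendsto 0).comp h2
    rw [Real.exp_zero] at h3
    exact h3
  have h4 : Tendsto (fun x : ℝ => Real.exp (1 / x) * (1 + 1 / Real.log x)) atTop (𝓝 1) := by
    have h5 : Tendsto (fun x : ℝ => 1 + 1 / Real.log x) atTop (𝓝 (1 + 0)) :=
      tendsto_const_nhds.add (tendsto_const_nhds.div_atTop Real.tendsto_log_atTop)
    have h6 := h1.mul h5
    simpa using h6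
  have h7 : (1 : ℝ) < 1 + η := by linarith
  filter_upwards [h4.eventually_lt_const h7, eventually_ge_atTop (1 : ℝ),
    Real.tendsto_log_atTop.eventually_ge_atTop 1] with x h8 hx1 hl1 s hs
  have hx0 : 0 < x := by linarith
  have hs0 : 0 < s := lt_of_lt_of_le (by positivity) hs
  have h9 := MM_le hx1 hs
  have h10 := one_le_MM hs0
  have h11 : Real.log (2 * x) ≤ (1 + 1 / Real.log x) * Real.log x := by
    rw [Real.log_mul (by norm_num) hx0.ne', add_mul, one_div, inv_mul_cancel₀ (by linarith)]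
    have := Real.log_two_lt_d9
    linarith
  have h12 : MM s ≤ (1 + η) * Real.log x := by
    calc MM s ≤ Real.exp (1 / x) * Real.log (2 * x) := h9
      _ ≤ Real.exp (1 / x) * ((1 + 1 / Real.log x) * Real.log x) :=
        mul_le_mul_of_nonneg_left h11 (Real.exp_pos _).le
      _ = (Real.exp (1 / x) * (1 + 1 / Real.log x)) * Real.log x := by ring
      _ ≤ (1 + η) * Real.log x := mul_le_mul_of_nonneg_right h8.le (by linarith)
  obtain ⟨g, hgd⟩ : ∃ g : ℝ, g = 2 * Real.exp (-Real.eulerMascheroniConstant) := ⟨_, rfl⟩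
  have hg : 0 < g := by rw [hgd]; positivity
  rw [Phi_eq, ← hgd, div_le_div_iff₀ (by linarith) (by linarith)]
  rcases le_or_gt 1 η with h13 | h13
  · have h14 : (1 - η) * g * MM s ≤ 0 := by
      apply mul_nonpos_of_nonpos_of_nonneg _ (by linarith)
      apply mul_nonpos_of_nonpos_of_nonneg _ hg.le
      linarith
    have h15 : 0 ≤ g * Real.log x := by positivity
    linarith
  · calc (1 - η) * g * MM s ≤ (1 - η) * g * ((1 + η) * Real.log x) := by
          apply mul_le_mul_of_nonneg_left h12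
          apply mul_nonneg _ hg.le
          linarith
      _ = (1 - η ^ 2) * (g * Real.log x) := by ring
      _ ≤ 1 * (g * Real.log x) := by
          apply mul_le_mul_of_nonneg_right _ (by positivity)
          nlinarith
      _ = g * Real.log x := one_mul _

end Pool.Agent.LibThin91
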