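import Pool.Agent.LibThin91.R7
import Pool.Agent.LibThin91.F1
import Pool.Agent.LibThin21.F2

/-!
Long windows free of sifted elements at every scale with enough random primes; almost surely at
arbitrarily large ones.
-/

namespace Pool.Agent.LibThin91

open Filter Topology MeasureTheory ProbabilityTheory
open Pool.Agent.LibMaier Pool.Agent.LibThin21

variable {Ω : Type*} [MeasurableSpace Ω] {μ : Measure Ω} [IsProbabilityMeasure μ] {E : Set ℕ}
  {a : ℕ → Ω → ℕ}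

/-- `δ(X)`, `X = exp x`: the sum of `1 / p` over the primes of `E` with
`(log X) ^ 8 < p ≤ X ^ (1/3)`. -/
noncomputable def del (E : Set ℕ) (x : ℝ) : ℝ := SE E (x ^ 8) (Real.exp (x / 3))

lemma prod_bounds (E : Set ℕ) (x : ℝ) :
    0 < ∏ p ∈ EP E (x ^ 8) (Real.exp (x / 3)), (1 - 1 / (p : ℝ)) ∧
      ∏ p ∈ EP E (x ^ 8) (Real.exp (x / 3)), (1 - 1 / (p : ℝ)) ≤ Real.exp (-(del E x)) := by
  obtain ⟨P, hP⟩ : ∃ P, P = EP E (x ^ 8) (Real.exp (x / 3)) := ⟨_, rfl⟩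
  have hdel : del E x = ∑ p ∈ P, 1 / (p : ℝ) := by rw [hP]; rfl
  rw [hdel, ← hP]
  have hprime : ∀ p ∈ P, p.Prime := by
    intro p hp
    rw [hP, mem_EP (Real.exp_pos _).le] at hp
    exact hp.1
  have hpos : ∀ p ∈ P, 0 < 1 - 1 / (p : ℝ) := by
    intro p hp
    have h9 : (2 : ℝ) ≤ (p : ℝ) := by exact_mod_cast (hprime p hp).two_le
    have h10 : 1 / (p : ℝ) ≤ 1 / 2 := one_div_le_one_div_of_le (by norm_num) h9
    linarith
  refine ⟨Finset.prod_pos hpos, ?_⟩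
  calc ∏ p ∈ P, (1 - 1 / (p : ℝ)) ≤ ∏ p ∈ P, Real.exp (-(1 / (p : ℝ))) := by
        apply Finset.prod_le_prod
        · intro p hp
          exact (hpos p hp).le
        · intro p _
          have := Real.add_one_le_exp (-(1 / (p : ℝ)))
          linarith
    _ = Real.exp (∑ p ∈ P, -(1 / (p : ℝ))) := by rw [Real.exp_sum]
    _ = Real.exp (-∑ p ∈ P, 1 / (p : ℝ)) := by rw [Finset.sum_neg_distrib]

lemma one_sub_exp_ge {x s : ℝ} (hx : 1 ≤ x) (hs : 1 / x ≤ s) :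
    1 / (2 * x) ≤ 1 - Real.exp (-s) := by
  have hx0 : 0 < x := by linarith
  have h0 : 0 < 1 / x := by positivity
  have h3 : 1 / x ≤ 1 := by rw [div_le_one hx0]; exact hx
  have h4 : Real.exp (-(1 / x)) ≤ 1 / (1 + 1 / x) := by
    rw [Real.exp_neg, ← one_div]
    apply one_div_le_one_div_of_le (by linarith)
    have := Real.add_one_le_exp (1 / x)
    linarith
  have h5 : 1 / (1 + 1 / x) = 1 - 1 / (x + 1) := by
    field_simp
    ring
  have h6 : 1 / (2 * x) ≤ 1 / (x + 1) := by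
    apply one_div_le_one_div_of_le (by linarith)
    linarith
  have h7 : Real.exp (-s) ≤ Real.exp (-(1 / x)) := Real.exp_le_exp.2 (by linarith)
  linarith

/-- At every large scale `X = exp x` with `δ(X) ≥ 1 / log X`, with probability at least `1 - η` there
is a window of length `(1 - η) Φ(δ(X)) (log X)²` between `X / C` and `C X` which contains no element
of the sifted set, `C = exp V` depending only on `η`. -/
theorem scales (hE : Thin E) (hM : Model μ E a) {η : ℝ} (hη : 0 < η) :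
    ∃ V : ℝ, ∀ᶠ x : ℝ in atTop, 1 / x ≤ del E x →
      1 - η ≤ μ.real {ω | ∃ m : ℕ, Real.exp (x - V) ≤ m ∧ m ≤ Real.exp (x + V) ∧
        sifted (fun p => a p ω) ∩ Set.Ioc m (m + ⌊(1 - η) * Phi (del E x) * x ^ 2⌋₊) = ∅} := by
  rcases le_or_gt 1 η with h1 | hη1
  · refine ⟨0, Eventually.of_forall fun x _ => ?_⟩
    exact le_trans (by linarith) measureReal_nonneg
  obtain ⟨ε, hεd⟩ : ∃ ε : ℝ, ε = η / 200 := ⟨_, rfl⟩
  have hε : 0 < ε := by rw [hεd]; positivity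
  have hε1 : ε < 1 / 100 := by rw [hεd]; linarith
  have hεη : ε ≤ η / 60 := by rw [hεd]; linarith
  obtain ⟨V, hV⟩ := window_prob_unif hE hM hε hε1 (Lam := 2) (by norm_num)
  refine ⟨V, ?_⟩
  filter_upwards [hV, window_lower hη1, eventually_ge_atTop (1 : ℝ)] with x hx hlow hx1 hdel
  have hx0 : 0 < x := by linarith
  have hs0 : 0 < del E x := lt_of_lt_of_le (by positivity) hdel
  obtain ⟨hQ0, hQ1⟩ := prod_bounds E x
  have hPhi := Phi_pos hs0
  have hup : (1 - η) * Phi (del E x) ≤ 2 := by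
    have h2 := Phi_le_two hs0
    nlinarith
  have h3 := hx ((1 - η) * Phi (del E x)) (hlow _ hdel) hup _ rfl (by
    have := one_sub_exp_ge hx1 hdel
    linarith) (room hs0 hη1 hε hεη hQ0 hQ1)
  refine le_trans (by rw [hεd]; linarith) h3

lemma measurableSet_scale (ha : ∀ p, Measurable (a p)) (u v : ℝ) (h : ℕ) :
    MeasurableSet {ω | ∃ m : ℕ, u ≤ m ∧ (m : ℝ) ≤ v ∧
      sifted (fun p => a p ω) ∩ Set.Ioc m (m + h) = ∅} := by
  have h1 : {ω | ∃ m : ℕ, u ≤ m ∧ (m : ℝ) ≤ v ∧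
      sifted (fun p => a p ω) ∩ Set.Ioc m (m + h) = ∅} =
      ⋃ m : ℕ, ⋃ _ : u ≤ m ∧ (m : ℝ) ≤ v, {ω | sifted (fun p => a p ω) ∩ Set.Ioc m (m + h) = ∅} := by
    ext ω
    simp only [Set.mem_setOf_eq, Set.mem_iUnion, exists_prop, and_assoc]
  rw [h1]
  exact MeasurableSet.iUnion fun m => MeasurableSet.iUnion fun _ => measurableSet_window ha m _

/-- Almost surely such windows exist at arbitrarily large scales from any given unbounded set. -/
theorem ae_scales (hE : Thin E) (hM : Model μ E a) {S : Set ℝ}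
    (hS : ∃ᶠ x : ℝ in atTop, x ∈ S ∧ 1 / x ≤ del E x) :
    ∀ᵐ ω ∂μ, ∀ η : ℝ, 0 < η → ∃ᶠ x : ℝ in atTop, (x ∈ S ∧ 1 / x ≤ del E x) ∧
      ∃ m : ℕ, Real.exp ((1 - η) * x) ≤ m ∧ m ≤ Real.exp ((1 + η) * x) ∧
        sifted (fun p => a p ω) ∩ Set.Ioc m (m + ⌊(1 - η) * Phi (del E x) * x ^ 2⌋₊) = ∅ := by
  -- for one `η` and one lower bound for `x`
  have hone : ∀ η : ℝ, 0 < η → ∀ A : ℝ, ∀ᵐ ω ∂μ, ∃ x : ℝ, A ≤ x ∧ (x ∈ S ∧ 1 / x ≤ del E x) ∧
      ∃ m : ℕ, Real.exp ((1 - η) * x) ≤ m ∧ m ≤ Real.exp ((1 + η) * x) ∧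
        sifted (fun p => a p ω) ∩ Set.Ioc m (m + ⌊(1 - η) * Phi (del E x) * x ^ 2⌋₊) = ∅ := by
    intro η hη A
    obtain ⟨G, hG⟩ : ∃ G : Set Ω, G = {ω | ∃ x : ℝ, A ≤ x ∧ (x ∈ S ∧ 1 / x ≤ del E x) ∧
      ∃ m : ℕ, Real.exp ((1 - η) * x) ≤ m ∧ m ≤ Real.exp ((1 + η) * x) ∧
        sifted (fun p => a p ω) ∩ Set.Ioc m (m + ⌊(1 - η) * Phi (del E x) * x ^ 2⌋₊) = ∅} := ⟨_, rfl⟩
    have hle : ∀ κ : ℝ, 0 < κ → μ.real Gᶜ ≤ κ := by
      intro κ hκ
      obtain ⟨κ', hκ'⟩ : ∃ κ' : ℝ, κ' = min κ η := ⟨_, rfl⟩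
      have hκ0 : 0 < κ' := by rw [hκ']; exact lt_min hκ hη
      have hκκ : κ' ≤ κ := by rw [hκ']; exact min_le_left _ _
      have hκη : κ' ≤ η := by rw [hκ']; exact min_le_right _ _
      obtain ⟨V, hV⟩ := scales hE hM hκ0
      have hVx : ∀ᶠ x : ℝ in atTop, V ≤ η * x :=
        (tendsto_id.const_mul_atTop hη).eventually_ge_atTop V
      obtain ⟨x, ⟨hxS, hxd⟩, hx, hxV, hxA, hx1⟩ :=
        (hS.and_eventually (hV.and (hVx.and ((eventually_ge_atTop A).and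
          (eventually_ge_atTop (1 : ℝ)))))).exists
      have hp := hx hxd
      have hs0 : 0 < del E x := lt_of_lt_of_le (by positivity) hxd
      obtain ⟨W, hW⟩ : ∃ W : Set Ω, W = {ω | ∃ m : ℕ, Real.exp (x - V) ≤ m ∧ (m : ℝ) ≤ Real.exp (x + V) ∧
        sifted (fun p => a p ω) ∩ Set.Ioc m (m + ⌊(1 - κ') * Phi (del E x) * x ^ 2⌋₊) = ∅} := ⟨_, rfl⟩
      rw [← hW] at hp
      have hWm : MeasurableSet W := by
        rw [hW]
        exact measurableSet_scale hM.meas _ _ _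
      have hWG : W ⊆ G := by
        rw [hW, hG]
        rintro ω ⟨m, hm1, hm2, hm3⟩
        refine ⟨x, hxA, ⟨hxS, hxd⟩, m, ?_, ?_, ?_⟩
        · refine le_trans (Real.exp_le_exp.2 ?_) hm1
          linarith
        · refine hm2.trans (Real.exp_le_exp.2 ?_)
          linarith
        · apply Set.eq_empty_of_subset_empty
          rw [← hm3]
          rintro j ⟨hj, hj1, hj2⟩
          refine ⟨hj, hj1, hj2.trans ?_⟩
          have hfl : ⌊(1 - η) * Phi (del E x) * x ^ 2⌋₊ ≤ ⌊(1 - κ') * Phi (del E x) * x ^ 2⌋₊ := by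
            apply Nat.floor_mono
            have := Phi_pos hs0
            gcongr
          omega
      calc μ.real Gᶜ ≤ μ.real Wᶜ :=
            measureReal_mono (Set.compl_subset_compl.2 hWG) (measure_ne_top _ _)
        _ = 1 - μ.real W := probReal_compl_eq_one_sub hWm
        _ ≤ κ := by linarith
    have h0 : μ.real Gᶜ ≤ 0 := le_of_forall_pos_le_add fun κ hκ => by
      rw [zero_add]
      exact hle κ hκ
    have h1 : μ.real Gᶜ = 0 := le_antisymm h0 measureReal_nonneg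
    rw [measureReal_eq_zero_iff] at h1
    have h2 : ∀ᵐ ω ∂μ, ω ∈ G := by
      rw [ae_iff]
      exact h1
    rw [hG] at h2
    exact h2
  have hall : ∀ n N : ℕ, ∀ᵐ ω ∂μ, ∃ x : ℝ, (N : ℝ) ≤ x ∧ (x ∈ S ∧ 1 / x ≤ del E x) ∧
      ∃ m : ℕ, Real.exp ((1 - 1 / ((n : ℝ) + 1)) * x) ≤ m ∧ m ≤ Real.exp ((1 + 1 / ((n : ℝ) + 1)) * x) ∧
        sifted (fun p => a p ω) ∩
          Set.Ioc m (m + ⌊(1 - 1 / ((n : ℝ) + 1)) * Phi (del E x) * x ^ 2⌋₊) = ∅ := by
    intro n N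
    exact hone (1 / ((n : ℝ) + 1)) (by positivity) N
  have hall' : ∀ᵐ ω ∂μ, ∀ n N : ℕ, ∃ x : ℝ, (N : ℝ) ≤ x ∧ (x ∈ S ∧ 1 / x ≤ del E x) ∧
      ∃ m : ℕ, Real.exp ((1 - 1 / ((n : ℝ) + 1)) * x) ≤ m ∧ m ≤ Real.exp ((1 + 1 / ((n : ℝ) + 1)) * x) ∧
        sifted (fun p => a p ω) ∩
          Set.Ioc m (m + ⌊(1 - 1 / ((n : ℝ) + 1)) * Phi (del E x) * x ^ 2⌋₊) = ∅ := by
    rw [ae_all_iff]
    intro n
    rw [ae_all_iff]
    exact hall n
  filter_upwards [hall'] with ω hω η hη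
  rw [frequently_atTop]
  intro A
  obtain ⟨n, hn⟩ := exists_nat_one_div_lt hη
  obtain ⟨N, hN⟩ := exists_nat_ge (max A 1)
  obtain ⟨x, hxN, hxS, m, hm1, hm2, hm3⟩ := hω n N
  have hx1 : 1 ≤ x := (le_max_right _ _).trans (hN.trans hxN)
  have hx0 : 0 < x := by linarith
  have hs0 : 0 < del E x := lt_of_lt_of_le (by positivity) hxS.2
  refine ⟨x, (le_max_left _ _).trans (hN.trans hxN), hxS, m, ?_, ?_, ?_⟩
  · refine le_trans (Real.exp_le_exp.2 ?_) hm1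
    apply mul_le_mul_of_nonneg_right _ hx0.le
    linarith
  · refine hm2.trans (Real.exp_le_exp.2 ?_)
    apply mul_le_mul_of_nonneg_right _ hx0.le
    linarith
  · apply Set.eq_empty_of_subset_empty
    rw [← hm3]
    rintro j ⟨hj, hj1, hj2⟩
    refine ⟨hj, hj1, hj2.trans ?_⟩
    have hfl : ⌊(1 - η) * Phi (del E x) * x ^ 2⌋₊ ≤
        ⌊(1 - 1 / ((n : ℝ) + 1)) * Phi (del E x) * x ^ 2⌋₊ := by
      apply Nat.floor_mono
      have := Phi_pos hs0
      gcongr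
    omega

end Pool.Agent.LibThin91
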