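import Pool.Agent.LibThin91.F2
import Pool.Agent.LibThin21.F3

/-!
Consequences for the gaps of the sifted set.
-/

namespace Pool.Agent.LibThin91

open Filter Topology MeasureTheory ProbabilityTheory
open Pool.Agent.LibMaier Pool.Agent.LibThin21 Pool.Agent.LibCramer

variable {Ω : Type*} [MeasurableSpace Ω] {μ : Measure Ω} [IsProbabilityMeasure μ] {E : Set ℕ}
  {a : ℕ → Ω → ℕ}

/-- an empty window lies between two consecutive elements -/
lemma gap_of_window {B : Set ℕ} (hB : B.Infinite) {m h b0 : ℕ} (hb0 : b0 ∈ B) (hb0m : b0 ≤ m)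
    (hw : B ∩ Set.Ioc m (m + h) = ∅) :
    ∃ b ∈ B, ∃ b' ∈ B, b0 ≤ b ∧ b ≤ m ∧ m + h < b' ∧ ∀ j, b < j → j < b' → j ∉ B := by
  classical
  -- the largest element up to `m`
  obtain ⟨F, hF⟩ : ∃ F : Finset ℕ, F = (Finset.range (m + 1)).filter (fun j => j ∈ B) := ⟨_, rfl⟩
  have hb0F : b0 ∈ F := by
    rw [hF, Finset.mem_filter, Finset.mem_range]
    exact ⟨by omega, hb0⟩
  have hne : F.Nonempty := ⟨b0, hb0F⟩
  have hbF := F.max'_mem hne
  obtain ⟨b, hb⟩ : ∃ b, b = F.max' hne := ⟨_, rfl⟩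
  rw [← hb] at hbF
  have hbF' := hbF
  rw [hF, Finset.mem_filter, Finset.mem_range] at hbF'
  -- the smallest element above `m`
  have hex : ∃ j, m < j ∧ j ∈ B := by
    obtain ⟨j, hj1, hj2⟩ := hB.exists_gt m
    exact ⟨j, hj2, hj1⟩
  obtain ⟨b', hb'⟩ : ∃ b', b' = Nat.find hex := ⟨_, rfl⟩
  have hspec := Nat.find_spec hex
  rw [← hb'] at hspec
  have hmin : ∀ j, m < j → j < b' → j ∉ B := by
    intro j hj1 hj2 hj
    rw [hb'] at hj2
    exact Nat.find_min hex hj2 ⟨hj1, hj⟩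
  refine ⟨b, hbF'.2, b', hspec.2, ?_, by omega, ?_, ?_⟩
  · rw [hb]
    exact F.le_max' b0 hb0F
  · by_contra hcon
    push Not at hcon
    have : b' ∈ B ∩ Set.Ioc m (m + h) := ⟨hspec.2, hspec.1, hcon⟩
    rw [hw] at this
    exact this
  · intro j hj1 hj2 hjB
    rcases le_or_gt j m with h1 | h1
    · have hjF : j ∈ F := by
        rw [hF, Finset.mem_filter, Finset.mem_range]
        exact ⟨by omega, hjB⟩
      have := F.le_max' j hjF
      rw [← hb] at this
      omega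
    · exact hmin j h1 hj2 hjB

/-- `L(B) ≥ Φ(s)`, `s ≤ limsup δ(X)`. -/
theorem cramer_ge (hE : Thin E) (hM : Model μ E a) {s : ℝ} (hs : 0 < s)
    (hfreq : ∀ s' : ℝ, s' < s → ∃ᶠ x : ℝ in atTop, s' ≤ del E x) :
    ∀ᵐ ω ∂μ, ENNReal.ofReal (Phi s) ≤ cramer (sifted (fun p => a p ω)) := by
  apply ae_of_lt (Phi_pos hs)
  intro d hd hds
  -- `d < Φ(s')`, `s' < s`
  obtain ⟨s', hs'0, hs's, hds'⟩ : ∃ s' : ℝ, 0 < s' ∧ s' < s ∧ d < Phi s' := by
    obtain ⟨lam, s', ε0, h1, h2, h3, h4, h5, h6⟩ := Phi_room hs hd hds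
    refine ⟨s', h2, h3, ?_⟩
    have h7 := h6 ε0 h4 le_rfl (Real.exp (-s')) (Real.exp_pos _) le_rfl
    rw [← MM_eq] at h7
    have h8 := one_le_MM h2
    have heg := eg_pos
    have h9 : eg * Real.exp (-Real.eulerMascheroniConstant) = 1 := by
      unfold eg
      rw [← Real.exp_add]
      simp
    have hlam : 0 < lam := hd.trans h1
    have h10 : (eg / 2) * lam * MM s' < 1 := by
      have h11 : 0 < (eg / 2) * lam * MM s' := by positivity
      have h12 : (eg / 2) * lam * MM s' ≤ (1 + 50 * ε0) * (eg / 2) * lam * MM s' := by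
        have : (1 + 50 * ε0) * (eg / 2) * lam * MM s' = (1 + 50 * ε0) * ((eg / 2) * lam * MM s') := by
          ring
        rw [this]
        nlinarith
      linarith
    have h13 : lam ≤ Phi s' := by
      rw [Phi_eq, le_div_iff₀ (by linarith)]
      have h14 : Real.exp (-Real.eulerMascheroniConstant) > 0 := Real.exp_pos _
      have h15 : (eg / 2 * lam * MM s') * (2 * Real.exp (-Real.eulerMascheroniConstant)) <
          1 * (2 * Real.exp (-Real.eulerMascheroniConstant)) :=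
        mul_lt_mul_of_pos_right h10 (by positivity)
      have h16 : (eg / 2 * lam * MM s') * (2 * Real.exp (-Real.eulerMascheroniConstant)) =
          lam * MM s' * (eg * Real.exp (-Real.eulerMascheroniConstant)) := by ring
      rw [h16, h9] at h15
      linarith
    linarith
  -- room for `η`
  obtain ⟨η, hη0, hη1, hηd⟩ : ∃ η : ℝ, 0 < η ∧ η < 1 ∧ d * (1 + η) ^ 2 ≤ (1 - η) * Phi s' := by
    have hcont : ContinuousAt (fun η : ℝ => d * (1 + η) ^ 2 - (1 - η) * Phi s') 0 := by fun_prop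
    have hval : d * (1 + 0) ^ 2 - (1 - (0 : ℝ)) * Phi s' < 0 := by
      norm_num
      exact hds'
    have hev := hcont.eventually_lt continuousAt_const hval
    have hev2 : ∀ᶠ t in 𝓝 (0 : ℝ), t < 1 :=
      (continuousAt_id.eventually_lt continuousAt_const (by norm_num))
    obtain ⟨t, ⟨ht1, ht2⟩, ht0⟩ := ((hev.and hev2).filter_mono nhdsWithin_le_nhds |>.and
      (self_mem_nhdsWithin : Set.Ioi (0:ℝ) ∈ 𝓝[>] (0:ℝ))).exists
    exact ⟨t, ht0, ht2, by linarith⟩
  have hS : ∃ᶠ x : ℝ in atTop, x ∈ {x : ℝ | s' ≤ del E x} ∧ 1 / x ≤ del E x := by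
    have h1 : ∀ᶠ x : ℝ in atTop, 1 / x ≤ s' := by
      have h2 : Tendsto (fun x : ℝ => 1 / x) atTop (𝓝 0) := by
        simpa using tendsto_inv_atTop_zero
      exact (h2.eventually_lt_const hs'0).mono fun x hx => hx.le
    refine ((hfreq s' hs's).and_eventually h1).mono ?_
    rintro x ⟨h2, h3⟩
    exact ⟨h2, h3.trans h2⟩
  filter_upwards [ae_infinite hE hM, ae_scales hE hM hS] with ω h1 h2
  apply le_cramer h1 hd.le
  have h3 := h2 η hη0
  rw [frequently_atTop]
  intro N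
  obtain ⟨x, ⟨hxS, m, hm1, hm2, hm3⟩, hx⟩ := (h3.and_eventually
    ((eventually_ge_atTop (1 : ℝ)).and (((tendsto_id.const_mul_atTop
      (show 0 < 1 - η by linarith)).eventually_ge_atTop (Real.log N + 1))))).exists
  have hx1 := hx.1
  have hxN : Real.log N + 1 ≤ (1 - η) * x := hx.2
  have hx0 : 0 < x := by linarith
  have hm0 : (0 : ℝ) < m := lt_of_lt_of_le (Real.exp_pos _) hm1
  have hlogm : Real.log m ≤ (1 + η) * x := by
    rw [Real.log_le_iff_le_exp hm0]
    exact hm2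
  have hlogm0 : 0 ≤ Real.log m := Real.log_natCast_nonneg m
  refine ⟨m, ?_, ?_⟩
  · rcases Nat.eq_zero_or_pos N with h4 | h4
    · omega
    · have h5 : (N : ℝ) ≤ m := by
        refine le_trans ?_ hm1
        rw [← Real.log_le_iff_le_exp (by exact_mod_cast h4)]
        linarith
      exact_mod_cast h5
  · intro j hj1 hj2 hjB
    have hlen : len d m ≤ ⌊(1 - η) * Phi (del E x) * x ^ 2⌋₊ := by
      unfold len
      apply Nat.floor_mono
      have h6 : Phi s' ≤ Phi (del E x) := Phi_mono hs'0 hxS.1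
      have h7 : Real.log m ^ 2 ≤ ((1 + η) * x) ^ 2 := by gcongr
      calc d * Real.log m ^ 2 ≤ d * ((1 + η) * x) ^ 2 := by gcongr
        _ = d * (1 + η) ^ 2 * x ^ 2 := by ring
        _ ≤ (1 - η) * Phi s' * x ^ 2 := by gcongr
        _ ≤ (1 - η) * Phi (del E x) * x ^ 2 := by
            have : 0 < 1 - η := by linarith
            gcongr
    have h8 : j ∈ sifted (fun p => a p ω) ∩
        Set.Ioc m (m + ⌊(1 - η) * Phi (del E x) * x ^ 2⌋₊) := ⟨hjB, hj1, hj2.trans (by omega)⟩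
    rw [hm3] at h8
    exact h8

theorem cramer_ge_top (hE : Thin E) (hM : Model μ E a)
    (hfreq : ∀ s : ℝ, ∃ᶠ x : ℝ in atTop, s ≤ del E x) :
    ∀ᵐ ω ∂μ, ENNReal.ofReal (2 * Real.exp (-Real.eulerMascheroniConstant)) ≤
        cramer (sifted (fun p => a p ω)) := by
  apply ae_of_lt (by positivity)
  intro d hd hdL
  have h2 : ∀ᶠ s : ℝ in atTop, d < Phi s ∧ 0 < s :=
    (tendsto_Phi.eventually_const_lt hdL).and (eventually_gt_atTop 0)
  obtain ⟨s, hds, hs⟩ := h2.exists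
  filter_upwards [cramer_ge hE hM hs (fun s' _ => hfreq s')] with ω hω
  exact (ENNReal.ofReal_le_ofReal hds.le).trans hω

/-- If `δ(X) ≥ 1 / log X` for arbitrarily large `X`, there are gaps of size
`(2 e^{-γ} - η) (log b)² / loglog b`. -/
theorem gaps_loglog (hE : Thin E) (hM : Model μ E a)
    (hfreq : ∃ᶠ x : ℝ in atTop, 1 / x ≤ del E x) :
    ∀ᵐ ω ∂μ, ∀ η : ℝ, 0 < η → ∃ᶠ b : ℕ in atTop, b ∈ sifted (fun p => a p ω) ∧
      ∃ b' ∈ sifted (fun p => a p ω), (∀ j, b < j → j < b' → j ∉ sifted (fun p => a p ω)) ∧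
        (2 * Real.exp (-Real.eulerMascheroniConstant) - η) *
          (Real.log b ^ 2 / Real.log (Real.log b)) ≤ (b' : ℝ) - b := by
  have hS : ∃ᶠ x : ℝ in atTop, x ∈ (Set.univ : Set ℝ) ∧ 1 / x ≤ del E x :=
    hfreq.mono fun x hx => ⟨Set.mem_univ x, hx⟩
  obtain ⟨g, hg⟩ : ∃ g : ℝ, g = 2 * Real.exp (-Real.eulerMascheroniConstant) := ⟨_, rfl⟩
  have hg0 : 0 < g := by rw [hg]; positivity
  filter_upwards [ae_infinite hE hM, ae_scales hE hM hS] with ω h1 h2 η hη
  rw [← hg]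
  -- room
  obtain ⟨κ, hκ0, hκ1, hκd⟩ : ∃ κ : ℝ, 0 < κ ∧ κ < 1 ∧
      (g - η) * (1 + κ) ^ 2 ≤ (1 - κ) ^ 2 * g := by
    have hcont : ContinuousAt (fun κ : ℝ => (g - η) * (1 + κ) ^ 2 - (1 - κ) ^ 2 * g) 0 := by fun_prop
    have hval : (g - η) * (1 + 0) ^ 2 - (1 - (0 : ℝ)) ^ 2 * g < 0 := by
      norm_num
      exact hη
    have hev := hcont.eventually_lt continuousAt_const hval
    have hev2 : ∀ᶠ t in 𝓝 (0 : ℝ), t < 1 :=
      (continuousAt_id.eventually_lt continuousAt_const (by norm_num))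
    obtain ⟨t, ⟨ht1, ht2⟩, ht0⟩ := ((hev.and hev2).filter_mono nhdsWithin_le_nhds |>.and
      (self_mem_nhdsWithin : Set.Ioi (0:ℝ) ∈ 𝓝[>] (0:ℝ))).exists
    exact ⟨t, ht0, ht2, by linarith⟩
  rw [frequently_atTop]
  intro N
  obtain ⟨b0, hb0B, hb0N⟩ := h1.exists_gt (max N 16)
  have h3 := h2 κ hκ0
  obtain ⟨x, ⟨hxS, m, hm1, hm2, hm3⟩, hx1, hxN, hPhi⟩ := (h3.and_eventually
    ((eventually_ge_atTop (Real.exp 1)).and (((tendsto_id.const_mul_atTop
      (show 0 < 1 - κ by linarith)).eventually_ge_atTop (Real.log b0 + 1)).and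
      (Phi_loglog hκ0)))).exists
  have hxN' : Real.log b0 + 1 ≤ (1 - κ) * x := hxN
  have hx0 : 0 < x := lt_of_lt_of_le (Real.exp_pos 1) hx1
  have hm0 : (0 : ℝ) < m := lt_of_lt_of_le (Real.exp_pos _) hm1
  have hb0m : b0 ≤ m := by
    have h5 : (b0 : ℝ) ≤ m := by
      refine le_trans ?_ hm1
      have : (0 : ℝ) < b0 := by
        have : 0 < b0 := lt_of_le_of_lt (Nat.zero_le _) hb0N
        exact_mod_cast this
      rw [← Real.log_le_iff_le_exp this]
      linarith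
    exact_mod_cast h5
  obtain ⟨b, hbB, b', hb'B, hb0b, hbm, hmb', hcons⟩ := gap_of_window h1 hb0B hb0m hm3
  have hN : N ≤ b := ((le_max_left N 16).trans hb0N.le).trans hb0b
  have h16 : 16 < b := lt_of_lt_of_le (lt_of_le_of_lt (le_max_right N 16) hb0N) hb0b
  refine ⟨b, hN, hbB, b', hb'B, hcons, ?_⟩
  -- the length of the gap
  obtain ⟨P, hP⟩ : ∃ P : ℝ, P = Phi (del E x) := ⟨_, rfl⟩
  have hs0 : 0 < del E x := lt_of_lt_of_le (by positivity) hxS.2
  have hgap : (1 - κ) * P * x ^ 2 ≤ (b' : ℝ) - b := by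
    have h4 : m + ⌊(1 - κ) * Phi (del E x) * x ^ 2⌋₊ + 1 ≤ b' := hmb'
    have h5 : (m : ℝ) + (⌊(1 - κ) * Phi (del E x) * x ^ 2⌋₊ : ℝ) + 1 ≤ b' := by exact_mod_cast h4
    have h6 := Nat.lt_floor_add_one ((1 - κ) * Phi (del E x) * x ^ 2)
    have h7 : (b : ℝ) ≤ m := by exact_mod_cast hbm
    rw [hP]
    linarith
  have hlogx : 1 ≤ Real.log x := by
    rw [Real.le_log_iff_exp_le hx0]
    exact hx1
  have hP2 : (1 - κ) * g / Real.log x ≤ P := by
    rw [hP, hg]
    exact hPhi _ hxS.2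
  -- log b
  obtain ⟨t, ht⟩ : ∃ t : ℝ, t = Real.log b := ⟨_, rfl⟩
  have hbR : (16 : ℝ) < b := by exact_mod_cast h16
  have hte : Real.exp 1 ≤ t := by
    rw [ht, Real.le_log_iff_exp_le (by linarith)]
    have h8 : Real.exp (Real.exp 1) ≤ Real.exp (2.7182818286) :=
      Real.exp_le_exp.2 Real.exp_one_lt_d9.le
    have h9 : Real.exp (2.7182818286) ≤ 16 := by
      have h10 : (2.7182818286 : ℝ) ≤ Real.log 16 := by
        have h11 : Real.log 16 = 4 * Real.log 2 := by
          rw [show (16 : ℝ) = 2 ^ 4 by norm_num, Real.log_pow]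
          norm_num
        have := Real.log_two_gt_d9
        rw [h11]
        linarith
      rwa [Real.le_log_iff_exp_le (by norm_num)] at h10
    linarith
  have ht0 : 0 < t := lt_of_lt_of_le (Real.exp_pos 1) hte
  have htx : t ≤ (1 + κ) * x := by
    rw [ht, Real.log_le_iff_le_exp (by linarith)]
    have : (b : ℝ) ≤ m := by exact_mod_cast hbm
    exact this.trans hm2
  have hmono : t ^ 2 / Real.log t ≤ ((1 + κ) * x) ^ 2 / Real.log x := by
    -- `log t ≥ (t / T) log T` for `e ≤ t ≤ T`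
    obtain ⟨T, hT⟩ : ∃ T : ℝ, T = (1 + κ) * x := ⟨_, rfl⟩
    rw [← hT] at htx ⊢
    have hT0 : 0 < T := lt_of_lt_of_le ht0 htx
    have hlt : 1 ≤ Real.log t := by
      rw [Real.le_log_iff_exp_le ht0]
      exact hte
    have hxT : x ≤ T := by rw [hT]; nlinarith
    have hlTx : Real.log x ≤ Real.log T := Real.log_le_log hx0 hxT
    have hanti := Real.log_div_self_antitoneOn (show t ∈ {x | Real.exp 1 ≤ x} from hte)
      (show T ∈ {x | Real.exp 1 ≤ x} from hte.trans htx) htx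
    simp only at hanti
    rw [div_le_div_iff₀ hT0 ht0] at hanti
    have hlT : 1 ≤ Real.log T := hlogx.trans hlTx
    rw [div_le_div_iff₀ (by linarith) (by linarith)]
    calc t ^ 2 * Real.log x ≤ t ^ 2 * Real.log T := by gcongr
      _ = t * (Real.log T * t) := by ring
      _ ≤ t * (Real.log t * T) := by gcongr
      _ = (t * T) * Real.log t := by ring
      _ ≤ (T * T) * Real.log t := by gcongr
      _ = T ^ 2 * Real.log t := by ring
  rcases le_or_gt (g - η) 0 with hneg | hpos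
  · have hlt : 0 < Real.log t := by
      have : 1 ≤ Real.log t := by
        rw [Real.le_log_iff_exp_le ht0]
        exact hte
      linarith
    have h12 : (g - η) * (t ^ 2 / Real.log t) ≤ 0 :=
      mul_nonpos_of_nonpos_of_nonneg hneg (by positivity)
    have h13 : 0 ≤ (b' : ℝ) - b := by
      have h14 : b ≤ b' := by omega
      have : (b : ℝ) ≤ b' := by exact_mod_cast h14
      linarith
    rw [← ht]
    linarith
  · rw [← ht]
    have hx2 : 0 ≤ x ^ 2 / Real.log x := by positivity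
    calc (g - η) * (t ^ 2 / Real.log t) ≤ (g - η) * (((1 + κ) * x) ^ 2 / Real.log x) :=
          mul_le_mul_of_nonneg_left hmono hpos.le
      _ = ((g - η) * (1 + κ) ^ 2) * (x ^ 2 / Real.log x) := by ring
      _ ≤ ((1 - κ) ^ 2 * g) * (x ^ 2 / Real.log x) := mul_le_mul_of_nonneg_right hκd hx2
      _ = (1 - κ) * ((1 - κ) * g / Real.log x) * x ^ 2 := by ring
      _ ≤ (1 - κ) * P * x ^ 2 := by
          apply mul_le_mul_of_nonneg_right _ (by positivity)
          apply mul_le_mul_of_nonneg_left hP2 (by linarith)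
      _ ≤ (b' : ℝ) - b := hgap

end Pool.Agent.LibThin91
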