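import Pool.Agent.LibThin21.G4
import Pool.Agent.LibThin21.R6L
import Pool.Agent.LibThin91.C1

/-!
Good scales exist for all large `x`, with the bound for the columns uniform in the window length.
-/

namespace Pool.Agent.LibThin91

open Filter Topology
open Pool.Agent.LibMaier Pool.Agent.LibThin21

/-- eventual inequalities for `z = ⌊x ^ (1 / B)⌋₊` -/
lemma z_facts {ε B v0 : ℝ} (hε : 0 < ε) (hε1 : ε < 1 / 100) (hv0 : 0 ≤ v0) (hB1 : 1 < B)
    (hB2 : B < 2) :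
    ∀ᶠ x : ℝ in atTop, ((⌊x ^ (1 / B)⌋₊ : ℕ) : ℝ) ^ B ≤ x ∧ x ≤ (((⌊x ^ (1 / B)⌋₊ : ℕ) : ℝ) + 1) ^ B ∧
      ((⌊x ^ (1 / B)⌋₊ : ℕ) : ℝ) * Real.log x ≤ ε ^ 3 * x ∧ x ≤ ((⌊x ^ (1 / B)⌋₊ : ℕ) : ℝ) ^ 2 ∧
      ((⌊x ^ (1 / B)⌋₊ : ℕ) : ℝ) ^ ((1 + B) / 2) ≤ (1 - ε) * x ∧
      x ≤ Real.exp ((⌊x ^ (1 / B)⌋₊ : ℕ) : ℝ) ∧
      2 * ((⌊x ^ (1 / B)⌋₊ : ℕ) : ℝ) + 1 ≤ x - v0 := by
  have hB0 : 0 < B := by linarith
  have hinv1 : 1 / B < 1 := by rw [div_lt_one hB0]; exact hB1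
  have hinv0 : 0 < 1 / B := by positivity
  have hrt : Tendsto (fun x : ℝ => x ^ (1 / B)) atTop atTop := tendsto_rpow_atTop hinv0
  -- x^(1/B) log x ≤ ε^3 x
  have h1 : ∀ᶠ x : ℝ in atTop, x ^ (1 / B) * Real.log x ≤ ε ^ 3 * x := by
    have h2 : (fun x : ℝ => Real.log x) =o[atTop] (fun x : ℝ => x ^ (1 - 1 / B)) :=
      isLittleO_log_rpow_atTop (by linarith)
    have h3 := h2.bound (show 0 < ε ^ 3 by positivity)
    filter_upwards [h3, eventually_ge_atTop (1 : ℝ)] with x hx hx1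
    have hx0 : 0 < x := by linarith
    rw [Real.norm_of_nonneg (Real.log_nonneg hx1), Real.norm_of_nonneg (by positivity)] at hx
    calc x ^ (1 / B) * Real.log x ≤ x ^ (1 / B) * (ε ^ 3 * x ^ (1 - 1 / B)) := by gcongr
      _ = ε ^ 3 * (x ^ (1 / B) * x ^ (1 - 1 / B)) := by ring
      _ = ε ^ 3 * x := by
          rw [← Real.rpow_add hx0]
          norm_num
  -- z^((1+B)/2) ≤ (1-ε) x
  have h4 : ∀ᶠ x : ℝ in atTop, x ^ (1 / B * ((1 + B) / 2)) ≤ (1 - ε) * x := by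
    have hexp : 1 / B * ((1 + B) / 2) < 1 := by
      rw [one_div, inv_mul_lt_iff₀ hB0]
      linarith
    have h5 : Tendsto (fun x : ℝ => x ^ (1 - 1 / B * ((1 + B) / 2))) atTop atTop :=
      tendsto_rpow_atTop (by linarith)
    filter_upwards [h5.eventually_ge_atTop 2, eventually_ge_atTop (1 : ℝ)] with x hx hx1
    have hx0 : 0 < x := by linarith
    have h6 : x ^ (1 / B * ((1 + B) / 2)) * x ^ (1 - 1 / B * ((1 + B) / 2)) = x := by
      rw [← Real.rpow_add hx0]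
      norm_num
    have h7 : 0 < x ^ (1 / B * ((1 + B) / 2)) := by positivity
    have h8 : x ^ (1 / B * ((1 + B) / 2)) * 2 ≤ x := by
      calc x ^ (1 / B * ((1 + B) / 2)) * 2 ≤
          x ^ (1 / B * ((1 + B) / 2)) * x ^ (1 - 1 / B * ((1 + B) / 2)) := by gcongr
        _ = x := h6
    nlinarith
  -- 4 ≤ x^{(2-B)/B ...}: x ≤ z^2
  have h9 : ∀ᶠ x : ℝ in atTop, 4 * x ≤ (x ^ (1 / B)) ^ 2 := by
    have h10 : Tendsto (fun x : ℝ => x ^ (2 / B - 1)) atTop atTop := by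
      apply tendsto_rpow_atTop
      have : 1 < 2 / B := by rw [lt_div_iff₀ hB0]; linarith
      linarith
    filter_upwards [h10.eventually_ge_atTop 4, eventually_ge_atTop (1 : ℝ)] with x hx hx1
    have hx0 : 0 < x := by linarith
    have h11 : (x ^ (1 / B)) ^ 2 = x ^ (2 / B - 1) * x := by
      rw [← Real.rpow_natCast, ← Real.rpow_mul hx0.le]
      nth_rewrite 3 [← Real.rpow_one x]
      rw [← Real.rpow_add hx0]
      congr 1
      push_cast
      ring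
    rw [h11]
    nlinarith
  have h12 : ∀ᶠ x : ℝ in atTop, v0 + 1 ≤ x / 2 :=
    (tendsto_id.atTop_div_const (by norm_num)).eventually_ge_atTop (v0 + 1)
  filter_upwards [h1, h4, h9, h12, hrt.eventually_ge_atTop 2, eventually_ge_atTop (1 : ℝ),
    Real.tendsto_log_atTop.eventually_ge_atTop 4] with x e1 e4 e9 e12 hr2 hx1 hl4
  have hx0 : 0 < x := by linarith
  obtain ⟨r, hr⟩ : ∃ r : ℝ, r = x ^ (1 / B) := ⟨_, rfl⟩
  obtain ⟨z, hz⟩ : ∃ z : ℕ, z = ⌊x ^ (1 / B)⌋₊ := ⟨_, rfl⟩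
  rw [← hz]
  rw [← hr] at e1 e9 hr2
  have hr0 : 0 < r := by linarith
  have hrB : r ^ B = x := by
    rw [hr, ← Real.rpow_mul hx0.le, one_div, inv_mul_cancel₀ hB0.ne', Real.rpow_one]
  have hzr : (z : ℝ) ≤ r := by
    rw [hz, hr]
    exact Nat.floor_le (by positivity)
  have hrz : r < (z : ℝ) + 1 := by
    rw [hz, hr]
    exact Nat.lt_floor_add_one _
  have hz0 : (0 : ℝ) ≤ z := Nat.cast_nonneg z
  have hz1 : 1 ≤ (z : ℝ) := by
    have h13 : 1 ≤ z := by
      rw [hz]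
      apply Nat.le_floor
      rw [← hr]
      push_cast
      linarith
    exact_mod_cast h13
  have hxz2 : x ≤ (z : ℝ) ^ 2 := by
    have h14 : r ≤ 2 * z := by linarith
    have h15 : r ^ 2 ≤ (2 * z) ^ 2 := by gcongr
    nlinarith
  refine ⟨?_, ?_, ?_, hxz2, ?_, ?_, ?_⟩
  · calc (z : ℝ) ^ B ≤ r ^ B := Real.rpow_le_rpow hz0 hzr hB0.le
      _ = x := hrB
  · calc x = r ^ B := hrB.symm
      _ ≤ ((z : ℝ) + 1) ^ B := Real.rpow_le_rpow hr0.le hrz.le hB0.le
  · exact (mul_le_mul_of_nonneg_right hzr (by linarith)).trans e1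
  · calc (z : ℝ) ^ ((1 + B) / 2) ≤ r ^ ((1 + B) / 2) :=
          Real.rpow_le_rpow hz0 hzr (by linarith)
      _ = x ^ (1 / B * ((1 + B) / 2)) := by rw [hr, ← Real.rpow_mul hx0.le]
      _ ≤ (1 - ε) * x := e4
  · refine hxz2.trans ?_
    have h16 := Real.quadratic_le_exp_of_nonneg (show (0 : ℝ) ≤ z from hz0)
    have h17 : (z : ℝ) ^ 2 ≤ Real.exp z := by
      -- `z ^ 2 ≤ exp z` for every natural number `z`
      rcases le_or_gt (2 : ℝ) z with h18 | h18
      · have h19 : (z : ℝ) / 2 * 2 = z := by ring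
        have h20 := Real.add_one_le_exp ((z : ℝ) / 2 - 1)
        have h21 : (z : ℝ) / 2 ≤ Real.exp ((z : ℝ) / 2 - 1) := by linarith
        have h22 : ((z : ℝ) / 2) ^ 2 ≤ (Real.exp ((z : ℝ) / 2 - 1)) ^ 2 := by gcongr
        have h23 : (Real.exp ((z : ℝ) / 2 - 1)) ^ 2 = Real.exp (z : ℝ) / Real.exp 2 := by
          rw [← Real.exp_nat_mul, ← Real.exp_sub]
          congr 1
          push_cast
          ring
        have h24 : (4 : ℝ) ≤ Real.exp 2 := by
          have h25 : Real.exp 2 = Real.exp 1 * Real.exp 1 := by rw [← Real.exp_add]; norm_num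
          have := Real.exp_one_gt_d9
          rw [h25]
          nlinarith
        have h26 : Real.exp (z : ℝ) / Real.exp 2 ≤ Real.exp (z : ℝ) / 4 :=
          div_le_div_of_nonneg_left (Real.exp_pos _).le (by norm_num) h24
        rw [h23] at h22
        nlinarith
      · have h27 : (z : ℝ) ^ 2 ≤ 1 + z + z ^ 2 / 2 := by nlinarith
        exact h27.trans h16
    exact h17
  · have h28 : 4 * (z : ℝ) ≤ ε ^ 3 * x := by
      have h29 : (z : ℝ) * 4 ≤ z * Real.log x := mul_le_mul_of_nonneg_left hl4 hz0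
      have h30 := (mul_le_mul_of_nonneg_right hzr (show 0 ≤ Real.log x by linarith)).trans e1
      linarith
    have h31 : ε ^ 3 ≤ 1 := by
      calc ε ^ 3 ≤ 1 ^ 3 := by gcongr; linarith
        _ = 1 := by norm_num
    have h32 : ε ^ 3 * x ≤ x := by nlinarith
    linarith

theorem exists_goodScale_unif {ε Lam v0 : ℝ} (hε : 0 < ε) (hε1 : ε < 1 / 100) (hv0 : 0 ≤ v0)
    (hLam : 0 < Lam) :
    ∀ᶠ x : ℝ in atTop, ∃ z p0 q k1 k2 : ℕ, GoodScale ε Lam v0 x z p0 q k1 k2 ∧ HC ε Lam x q := by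
  obtain ⟨B, hB1, hB2, hcols⟩ := cols_bound_unif hε hε1
  have hcols' := hcols Lam hLam
  have hB0 : 0 < B := by linarith
  obtain ⟨B', hB'⟩ : ∃ B' : ℝ, B' = (1 + B) / 2 := ⟨_, rfl⟩
  have hB'1 : 1 < B' := by rw [hB']; linarith
  have hB'2 : B' ≤ 2 := by rw [hB']; linarith
  obtain ⟨κ, hκ⟩ : ∃ κ : ℝ, κ = min (ε / 2) (1 / 2) := ⟨_, rfl⟩
  have hκ0 : 0 < κ := by rw [hκ]; exact lt_min (by linarith) (by norm_num)
  have hκ1 : κ ≤ ε / 2 := by rw [hκ]; exact min_le_left _ _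
  have hκ2 : κ ≤ 1 / 2 := by rw [hκ]; exact min_le_right _ _
  have hgood := good_sum_B hB'1 hB'2 hκ0 ⌈2000 / ε⌉₊
  have hap := ap_upper_all hB'1 hB'2 hε
  have hmany := many_primes hB'1 hB'2
  have hzt : Tendsto (fun x : ℝ => ⌊x ^ (1 / B)⌋₊) atTop atTop :=
    tendsto_nat_floor_atTop.comp (tendsto_rpow_atTop (by positivity))
  filter_upwards [z_facts hε hε1 hv0 hB1 hB2, hzt.eventually (hcols'.and (hgood.and (hap.and hmany))),
    Real.tendsto_log_atTop.eventually_ge_atTop (1 / Lam + 1),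
    eventually_ge_atTop (1 : ℝ)] with x hzf hev hlogx hx1
  obtain ⟨z, hz⟩ : ∃ z : ℕ, z = ⌊x ^ (1 / B)⌋₊ := ⟨_, rfl⟩
  rw [← hz] at hzf hev
  obtain ⟨e1, e2, e3, e4, e5, e6, e7⟩ := hzf
  obtain ⟨ecols, egood, eap, emany⟩ := hev
  obtain ⟨p0, hp0, hp0d, hp0big, hsum⟩ := egood
  obtain ⟨q, hqd⟩ := hp0d
  have hq : q * p0 = primorial z := by rw [hqd, mul_comm]
  have hx0 : 0 < x := by linarith
  have hq0 : q ≠ 0 := by
    rintro rfl
    rw [zero_mul] at hq
    exact primorial_ne_zero z hq.symm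
  have hqR : (1 : ℝ) ≤ q := by exact_mod_cast Nat.one_le_iff_ne_zero.2 hq0
  have hp0R : 2000 / ε ≤ (p0 : ℝ) := by
    have h1 : ((⌈2000 / ε⌉₊ : ℕ) : ℝ) ≤ p0 := by exact_mod_cast hp0big
    exact (Nat.le_ceil _).trans h1
  have hG1 : GoodPrime B' (ε / 2) ⌈2000 / ε⌉₊ z p0 := by
    refine ⟨hp0, ⟨q, hqd⟩, hp0big, ?_⟩
    intro q' _ hq' y hy1 hy2
    exact (hsum q' hq' y hy1 hy2).trans hκ1
  have hG2 : GoodPrime B' (1 / 2) ⌈2000 / ε⌉₊ z p0 := by
    refine ⟨hp0, ⟨q, hqd⟩, hp0big, ?_⟩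
    intro q' _ hq' y hy1 hy2
    exact (hsum q' hq' y hy1 hy2).trans hκ2
  have hz0 : (0 : ℝ) ≤ z := Nat.cast_nonneg z
  -- size of `q`
  have hqexp : (q : ℝ) ≤ Real.exp (2 * z) := by
    have h8 : q ≤ primorial z := by
      rw [← hq]
      exact Nat.le_mul_of_pos_right q hp0.pos
    have h9 : (q : ℝ) ≤ (4 : ℝ) ^ z := by
      exact_mod_cast h8.trans (primorial_le_four_pow z)
    refine h9.trans ?_
    rw [mul_comm, Real.exp_nat_mul]
    apply pow_le_pow_left₀ (by norm_num)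
    have h10 : (2.7182818283 : ℝ) < Real.exp 1 := Real.exp_one_gt_d9
    have h11 : Real.exp 2 = Real.exp 1 * Real.exp 1 := by rw [← Real.exp_add]; norm_num
    rw [h11]
    nlinarith
  -- the rows
  obtain ⟨ρ, hρ⟩ : ∃ ρ : ℝ, ρ = Real.exp (x - v0) / q := ⟨_, rfl⟩
  obtain ⟨k1, hk1⟩ : ∃ k1 : ℕ, k1 = ⌊ρ⌋₊ := ⟨_, rfl⟩
  obtain ⟨k2, hk2⟩ : ∃ k2 : ℕ, k2 = ⌈Real.exp (x + v0) / q⌉₊ := ⟨_, rfl⟩
  have hρ2 : 2 ≤ ρ := by
    rw [hρ, le_div_iff₀ (by linarith)]
    calc 2 * (q : ℝ) ≤ Real.exp 1 * Real.exp (2 * z) := by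
          have := Real.exp_one_gt_d9
          have := Real.exp_pos (2 * (z : ℝ))
          nlinarith
      _ = Real.exp (2 * z + 1) := by rw [← Real.exp_add]; ring_nf
      _ ≤ Real.exp (x - v0) := Real.exp_le_exp.2 e7
  have hk1le : (k1 : ℝ) ≤ ρ := by rw [hk1]; exact Nat.floor_le (by linarith)
  have hk1ge : ρ / 2 ≤ k1 := by
    have := Nat.lt_floor_add_one ρ
    rw [← hk1] at this
    linarith
  have hk1pos : (1 : ℝ) ≤ k1 := by linarith
  have hk1q : (0 : ℝ) < k1 * q := by positivity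
  have hk2ge : Real.exp (x + v0) / q ≤ k2 := by rw [hk2]; exact Nat.le_ceil _
  have hk2le : (k2 : ℝ) ≤ Real.exp (x + v0) / q + 1 := by
    rw [hk2]
    exact (Nat.ceil_lt_add_one (by positivity)).le
  have hk12R : (k1 : ℝ) ≤ k2 := by
    refine hk1le.trans (le_trans ?_ hk2ge)
    rw [hρ]
    apply div_le_div_of_nonneg_right _ (by linarith)
    apply Real.exp_le_exp.2
    linarith
  have hk2q : (0 : ℝ) < k2 * q := by
    have : (0 : ℝ) < k2 := by linarith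
    positivity
  have hlog1 : x - (v0 + 1) ≤ Real.log (k1 * q) := by
    rw [Real.le_log_iff_exp_le hk1q]
    have h1 : Real.exp (x - v0) = Real.exp (x - (v0 + 1)) * Real.exp 1 := by
      rw [← Real.exp_add]
      congr 1
      ring
    have h2 : Real.exp (x - v0) ≤ 2 * ((k1 : ℝ) * q) := by
      have h3 : ρ * q = Real.exp (x - v0) := by
        rw [hρ, div_mul_cancel₀ _ (by linarith)]
      have h4 : ρ / 2 * q ≤ k1 * q := mul_le_mul_of_nonneg_right hk1ge (by linarith)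
      linarith
    have h3 := Real.exp_one_gt_d9
    have h4 := Real.exp_pos (x - (v0 + 1))
    nlinarith
  have hlog2 : Real.log (k1 * q) ≤ x - v0 := by
    rw [Real.log_le_iff_le_exp hk1q]
    rwa [hρ, le_div_iff₀ (by linarith)] at hk1le
  have hlog3 : x + v0 ≤ Real.log (k2 * q) := by
    rw [Real.le_log_iff_exp_le hk2q]
    rwa [div_le_iff₀ (by linarith)] at hk2ge
  have hlog4 : Real.log (k2 * q) ≤ x + (v0 + 1) := by
    rw [Real.log_le_iff_le_exp hk2q]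
    have h9 : (k2 : ℝ) * q ≤ Real.exp (x + v0) + q := by
      have := mul_le_mul_of_nonneg_right hk2le (show (0 : ℝ) ≤ q by linarith)
      rw [add_mul, div_mul_cancel₀ _ (by linarith)] at this
      linarith
    have h10 : (q : ℝ) ≤ Real.exp (x + v0) := by
      refine hqexp.trans (Real.exp_le_exp.2 ?_)
      linarith
    have h11 : Real.exp (x + (v0 + 1)) = Real.exp (x + v0) * Real.exp 1 := by
      rw [← Real.exp_add]
      congr 1
      ring
    rw [h11]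
    have h12 : Real.exp (x + v0) * 2 ≤ Real.exp (x + v0) * Real.exp 1 := by
      apply mul_le_mul_of_nonneg_left _ (Real.exp_pos (x + v0)).le
      have := Real.exp_one_gt_d9
      linarith
    linarith
  have hx1ε : (1 - ε) * x ≤ x := by nlinarith
  have hHC : HC ε Lam x q := by
    intro lam hl1 hl2
    exact ecols p0 q hp0 hp0R hq x e1 e2 lam hl1 hl2
  have hLamlow : 1 / Real.log x ^ 2 ≤ Lam := by
    have h1 : 0 < 1 / Lam := by positivity
    have h2 : 1 ≤ Real.log x := by linarith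
    have h3 : 1 / Lam ≤ Real.log x ^ 2 := by nlinarith
    rw [div_le_iff₀ hLam] at h3
    rw [div_le_iff₀ (by positivity)]
    linarith
  refine ⟨z, p0, q, k1, k2, ?_, hHC⟩
  exact
    { hp0 := hp0
      hq := hq
      hp0big := by
        refine le_trans ?_ hp0R
        apply div_le_div_of_nonneg_right (by norm_num) hε.le
      hzx := e3
      hxz := e4
      hk12 := by exact_mod_cast hk12R
      hl1 := hlog1
      hl2 := hlog2
      hl3 := hlog3
      hl4 := hlog4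
      hAP := by
        intro x' hx'1 hx'2 u hu
        refine eap _ p0 q hG1 hq x' ?_ (hx'2.trans e6) u hu
        rw [hB']
        exact e5.trans hx'1
      hcols := hHC Lam hLamlow le_rfl
      hmany := by
        intro u hu
        refine emany _ p0 q hG2 hq x ?_ e6 u hu
        rw [hB']
        exact e5.trans hx1ε }

end Pool.Agent.LibThin91
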