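import Pool.Agent.LibThin91.Ex
import Pool.Agent.LibThin21.Conv

/-!
Sets of primes with an arbitrarily small sum of reciprocals which contain all primes of `(Y, 2Y]` for
arbitrarily large `Y`.
-/

namespace Pool.Agent.LibThin91

open Filter Topology
open Pool.Agent.LibThin21

/-- the primes of `(Y, 2Y]` -/
noncomputable def blk (Y : ℝ) : Finset ℕ := (Finset.Ioc ⌊Y⌋₊ ⌊2 * Y⌋₊).filter Nat.Prime

lemma mem_blk {Y : ℝ} (hY : 0 ≤ Y) {p : ℕ} : p ∈ blk Y ↔ p.Prime ∧ Y < p ∧ (p : ℝ) ≤ 2 * Y := by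
  unfold blk
  rw [Finset.mem_filter, Finset.mem_Ioc, Nat.floor_lt hY, Nat.le_floor_iff (by linarith)]
  tauto

lemma sum_blk_le {Y : ℝ} (hY : 1 < Y) : ∑ p ∈ blk Y, 1 / (p : ℝ) ≤ 3 / Real.log Y := by
  have hY0 : 0 < Y := by linarith
  have hl : 0 < Real.log Y := Real.log_pos hY
  have h1 : ∑ p ∈ blk Y, 1 / (p : ℝ) ≤ (1 / (Y * Real.log Y)) * ∑ p ∈ blk Y, Real.log p := by
    rw [Finset.mul_sum]
    apply Finset.sum_le_sum
    intro p hp
    rw [mem_blk hY0.le] at hp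
    have hp0 : (0 : ℝ) < p := by linarith
    rw [div_mul_eq_mul_div, one_mul, div_le_div_iff₀ hp0 (by positivity), one_mul]
    have h2 : Real.log Y ≤ Real.log p := Real.log_le_log hY0 hp.2.1.le
    calc Y * Real.log Y ≤ p * Real.log p := by
          apply mul_le_mul hp.2.1.le h2 hl.le hp0.le
      _ = Real.log p * p := mul_comm _ _
  have h3 : ∑ p ∈ blk Y, Real.log p ≤ Chebyshev.theta (2 * Y) := by
    unfold Chebyshev.theta
    apply Finset.sum_le_sum_of_subset_of_nonneg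
    · intro p hp
      unfold blk at hp
      rw [Finset.mem_filter, Finset.mem_Ioc] at hp ⊢
      exact ⟨⟨by omega, hp.1.2⟩, hp.2⟩
    · intro p _ _
      exact Real.log_natCast_nonneg p
  have h4 := Chebyshev.theta_le_log4_mul_x (show 0 ≤ 2 * Y by linarith)
  have h5 : Real.log 4 ≤ 1.5 := by
    have h6 : Real.log 4 = 2 * Real.log 2 := by
      rw [show (4 : ℝ) = 2 ^ 2 by norm_num, Real.log_pow]
      norm_num
    have := Real.log_two_lt_d9
    rw [h6]
    linarith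
  have h7 : ∑ p ∈ blk Y, Real.log p ≤ 3 * Y := by
    have h8 : Real.log 4 * (2 * Y) ≤ 1.5 * (2 * Y) := mul_le_mul_of_nonneg_right h5 (by linarith)
    linarith
  refine h1.trans ?_
  calc (1 / (Y * Real.log Y)) * ∑ p ∈ blk Y, Real.log p ≤ (1 / (Y * Real.log Y)) * (3 * Y) :=
        mul_le_mul_of_nonneg_left h7 (by positivity)
    _ = 3 / Real.log Y := by field_simp

lemma sum_biUnion_blk_le (Y : ℕ → ℝ) (K : ℕ) :
    ∑ p ∈ (Finset.range K).biUnion (fun k => blk (Y k)), 1 / (p : ℝ) ≤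
      ∑ k ∈ Finset.range K, ∑ p ∈ blk (Y k), 1 / (p : ℝ) := by
  induction K with
  | zero => simp
  | succ K ih =>
    rw [Finset.sum_range_succ, Finset.range_add_one, Finset.biUnion_insert]
    have h1 := Finset.sum_union_inter (s₁ := blk (Y K))
      (s₂ := (Finset.range K).biUnion (fun k => blk (Y k))) (f := fun p : ℕ => 1 / (p : ℝ))
    have h2 : 0 ≤ ∑ p ∈ blk (Y K) ∩ (Finset.range K).biUnion (fun k => blk (Y k)), 1 / (p : ℝ) :=
      Finset.sum_nonneg fun p _ => by positivity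
    linarith

/-- For every `ε > 0` there is a set `E` of primes with `∑ 1 / p ≤ ε` which contains all primes of
`(Y, 2Y]` for arbitrarily large `Y`. -/
theorem exists_small {ε : ℝ} (hε : 0 < ε) : ∃ E : Set ℕ, (∀ p ∈ E, p.Prime) ∧ Summable (rE E) ∧
    ∑' p, rE E p ≤ ε ∧
    ∃ᶠ Y : ℝ in atTop, ∀ p : ℕ, p.Prime → Y < p → (p : ℝ) ≤ 2 * Y → p ∈ E := by
  obtain ⟨Y, hYd⟩ : ∃ Y : ℕ → ℝ, Y = fun k => Real.exp (3 / ε * 2 ^ (k + 1)) := ⟨_, rfl⟩
  have hY1 : ∀ k, 1 < Y k := by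
    intro k
    rw [hYd]
    exact Real.one_lt_exp_iff.2 (by positivity)
  have hYlog : ∀ k, Real.log (Y k) = 3 / ε * 2 ^ (k + 1) := by
    intro k
    rw [hYd]
    exact Real.log_exp _
  have hYk : ∀ k : ℕ, (k : ℝ) ≤ 3 / ε * 2 ^ (k + 1) * (ε / 3) := by
    intro k
    have h1 : 3 / ε * 2 ^ (k + 1) * (ε / 3) = (2 : ℝ) ^ (k + 1) := by field_simp
    rw [h1]
    have h2 : k < 2 ^ (k + 1) := (Nat.lt_two_pow_self (n := k)).trans
      (Nat.pow_lt_pow_right (by norm_num) (Nat.lt_succ_self k))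
    exact_mod_cast h2.le
  have hYtend : Tendsto Y atTop atTop := by
    rw [hYd]
    apply Real.tendsto_exp_atTop.comp
    have h1 : Tendsto (fun k : ℕ => (k : ℝ) * (3 / ε)) atTop atTop :=
      tendsto_natCast_atTop_atTop.atTop_mul_const (by positivity)
    refine tendsto_atTop_mono ?_ h1
    intro k
    have h2 := mul_le_mul_of_nonneg_right (hYk k) (show 0 ≤ 3 / ε by positivity)
    refine h2.trans (le_of_eq ?_)
    field_simp
  obtain ⟨E, hE⟩ : ∃ E : Set ℕ, E = {p | ∃ k, p ∈ blk (Y k)} := ⟨_, rfl⟩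
  have hprime : ∀ p ∈ E, p.Prime := by
    intro p hp
    rw [hE] at hp
    obtain ⟨k, hk⟩ := hp
    exact ((mem_blk (by linarith [hY1 k])).1 hk).1
  have hgeom : ∀ K : ℕ, ∑ k ∈ Finset.range K, ∑ p ∈ blk (Y k), 1 / (p : ℝ) ≤ ε := by
    intro K
    have h1 : ∀ k ∈ Finset.range K, ∑ p ∈ blk (Y k), 1 / (p : ℝ) ≤ ε * (1 / 2) ^ (k + 1) := by
      intro k _
      refine (sum_blk_le (hY1 k)).trans (le_of_eq ?_)
      have h5 : (2 : ℝ) ^ (k + 1) * (1 / 2) ^ (k + 1) = 1 := by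
        rw [← mul_pow]
        norm_num
      have h6 : (1 / 2 : ℝ) ^ (k + 1) = 1 / 2 ^ (k + 1) := by
        rw [div_pow, one_pow]
      rw [hYlog, h6]
      field_simp
    have h2 : ∀ K : ℕ, ∑ k ∈ Finset.range K, ε * (1 / 2 : ℝ) ^ (k + 1) = ε * (1 - (1 / 2) ^ K) := by
      intro K
      induction K with
      | zero => simp
      | succ K ih =>
        rw [Finset.sum_range_succ, ih]
        ring
    refine (Finset.sum_le_sum h1).trans ?_
    rw [h2 K]
    have h3 : 0 ≤ (1 / 2 : ℝ) ^ K := by positivity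
    nlinarith
  have hbound : ∀ s : Finset ℕ, ∑ p ∈ s, rE E p ≤ ε := by
    intro s
    classical
    obtain ⟨M, hM⟩ : ∃ M : ℕ, ∀ p ∈ s, p ≤ M := ⟨s.sup id, fun p hp => Finset.le_sup (f := id) hp⟩
    obtain ⟨K, hK⟩ := eventually_atTop.1 (hYtend.eventually_gt_atTop (M : ℝ))
    have h1 : ∑ p ∈ s, rE E p = ∑ p ∈ s.filter (fun p => p.Prime ∧ p ∈ E), 1 / (p : ℝ) := by
      rw [Finset.sum_filter]
      apply Finset.sum_congr rfl
      intro p _
      rfl
    rw [h1]
    refine le_trans ?_ ((sum_biUnion_blk_le Y K).trans (hgeom K))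
    apply Finset.sum_le_sum_of_subset_of_nonneg
    · intro p hp
      rw [Finset.mem_filter] at hp
      have h2 := hp.2.2
      rw [hE] at h2
      obtain ⟨k, hk⟩ := h2
      rw [Finset.mem_biUnion]
      refine ⟨k, ?_, hk⟩
      rw [Finset.mem_range]
      by_contra hcon
      push Not at hcon
      have h3 := hK k hcon
      have h4 := ((mem_blk (by linarith [hY1 k])).1 hk).2.1
      have h5 : (p : ℝ) ≤ M := by exact_mod_cast hM p hp.1
      linarith
    · intro p _ _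
      positivity
  refine ⟨E, hprime, summable_of_sum_le (rE_nonneg E) hbound, ?_, ?_⟩
  · exact (summable_of_sum_le (rE_nonneg E) hbound).tsum_le_of_sum_le hbound
  · rw [frequently_atTop]
    intro A
    obtain ⟨k, hk⟩ := (hYtend.eventually_ge_atTop A).exists
    refine ⟨Y k, hk, fun p hp h1 h2 => ?_⟩
    rw [hE]
    exact ⟨k, (mem_blk (by linarith [hY1 k])).2 ⟨hp, h1, h2⟩⟩

end Pool.Agent.LibThin91
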